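import Pool.Agent.V8H92.TA.Cen
import Pool.Agent.W602.GT.KPick
import Pool.Agent.W619.PL.LAbs

/-!
`A¹`-uniruledness from the divisors on which the torus acts with smaller orbits.
-/

set_option autoImplicit false
set_option linter.unusedSectionVars false

open FF IntermediateField Pool.Agent.W603.LV Pool.Agent.W602.GT

namespace Pool.Agent.V8H92.TA

section

variable {k K : Type} [Field k] [Field K] [Algebra k K]

theorem ld_zpow (D : Derivation k K K) {x : K} (hx : x ≠ 0) (n : ℤ) :
    D (x ^ n) = n * (D x / x) * x ^ n := by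
  have hnat : ∀ m : ℕ, D (x ^ m) = m * (D x / x) * x ^ m := by
    intro m
    rw [D.leibniz_pow]
    rcases Nat.eq_zero_or_pos m with h | h
    · simp [h]
    · obtain ⟨l, rfl⟩ : ∃ l, m = l + 1 := ⟨m - 1, by omega⟩
      simp only [nsmul_eq_mul, smul_eq_mul, Nat.add_sub_cancel, pow_succ]
      field_simp
  rcases Int.eq_nat_or_neg n with ⟨m, rfl | rfl⟩
  · simpa using hnat m
  · rw [zpow_neg, zpow_natCast, D.leibniz_inv, hnat]
    have h1 : x ^ m ≠ 0 := pow_ne_zero _ hx
    simp only [smul_eq_mul]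
    push_cast
    field_simp

theorem ld_prod {ι : Type} (D : Derivation k K K) (s : Finset ι) (f c : ι → K)
    (h : ∀ i ∈ s, D (f i) = c i * f i) : D (∏ i ∈ s, f i) = (∑ i ∈ s, c i) * ∏ i ∈ s, f i := by
  classical
  induction s using Finset.induction_on with
  | empty => simp
  | insert i s hi ih =>
    rw [Finset.prod_insert hi, Finset.sum_insert hi, D.leibniz,
      ih fun j hj => h j (Finset.mem_insert_of_mem hj), h i (Finset.mem_insert_self _ _)]
    simp only [smul_eq_mul]
    ring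

/-- The `A¹`-uniruledness of a variety with function field `E (σ)`, on which the general points
with `σ = 0` and all points of the generic fibre over `E` with `σ ≠ 0` lie. -/
theorem a1_of_field [CharZero k] [IsAlgClosed k] {n : ℕ} (htr : Algebra.trdeg k K = n)
    {Bd : Place k K → Prop}
    {σ : K} (E : IntermediateField k K) (hσt : Transcendental E σ)
    (hfg : E.FG) (htop : E⟮σ⟯ = ⊤)
    (hBd : ∀ P : Place k K, (∀ c ∈ E, P.ord c = 0) → 0 ≤ P.ord σ → ¬ Bd P) :
    Pool.Agent.W619.PL.IsA1Uniruled k K n Bd := by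
  classical
  have hfin : FiniteDimensional E⟮σ⟯ K := by
    have h1 : Module.Finite E⟮σ⟯ K := by
      refine ⟨⟨{1}, ?_⟩⟩
      rw [eq_top_iff]
      intro z _
      have hz : z ∈ E⟮σ⟯ := by rw [htop]; exact mem_top
      rw [Finset.coe_singleton, Submodule.mem_span_singleton]
      exact ⟨⟨z, hz⟩, by rw [Algebra.smul_def, mul_one]; rfl⟩
    exact h1
  have hFF : IsFF E K := IsFF.of_finite hσt hfin
  have htr2 : Algebra.trdeg k E + 1 = n := by
    have h1 := _root_.trdeg_add_eq k E (A := K)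
    rw [hFF.trdeg, htr] at h1
    exact h1
  have hess : Algebra.EssFiniteType k E := (IntermediateField.essFiniteType_iff).2 hfg
  let e1 : RatFunc E ≃ₐ[E] E⟮σ⟯ := RatFunc.algEquivOfTranscendental σ hσt
  let e2 : E⟮σ⟯ ≃ₐ[E] K := (equivOfEq htop).trans topEquiv
  let e3 : RatFunc E ≃ₐ[E] K := e1.trans e2
  have he3 : e3 RatFunc.X = σ := by
    change e2 (e1 RatFunc.X) = σ
    have : e1 RatFunc.X = AdjoinSimple.gen E σ := by
      rw [← RatFunc.algebraMap_X]
      change RatFunc.algEquivOfTranscendental σ hσt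
        (algebraMap (Polynomial E) (RatFunc E) Polynomial.X) = _
      rw [RatFunc.algEquivOfTranscendental_algebraMap]
      apply Subtype.ext
      simp
    rw [this]
    rfl
  refine ⟨E, inferInstance, inferInstance,
    ((e3.symm.restrictScalars k : K ≃ₐ[k] RatFunc E) : K →ₐ[k] RatFunc E), hess, htr2, ?_⟩
  intro w hw v e he hwv
  have hwv' : ∀ f : K, w.ord (e3.symm f) = e * v.ord f := hwv
  refine hBd v (fun c hc => ?_) ?_
  · by_cases hc0 : c = 0
    · rw [hc0, v.ord_zero]
    have h1 : w.ord (e3.symm c) = 0 := by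
      have h2 : e3.symm c = algebraMap E (RatFunc E) ⟨c, hc⟩ := e3.symm.commutes ⟨c, hc⟩
      rw [h2]
      exact w.ord_const fun h => hc0 (congrArg Subtype.val h)
    rw [hwv'] at h1
    have : (e : ℤ) ≠ 0 := by exact_mod_cast he.ne'
    exact (mul_eq_zero.1 h1).resolve_left this
  · have h1 := hwv' σ
    have h2 : e3.symm σ = RatFunc.X := by rw [← he3, AlgEquiv.symm_apply_apply]
    rw [h2] at h1
    have h3 : 0 ≤ w.ord RatFunc.X := by
      rcases hw with h | h
      · exact absurd h RatFunc.X_ne_zero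
      · exact h
    rw [h1] at h3
    have : (0 : ℤ) < e := by exact_mod_cast he
    by_contra hcon
    push Not at hcon
    have := mul_neg_of_pos_of_neg this hcon
    omega

theorem exists_bezout {n : ℕ} (r : Fin n → ℤ) (i0 : Fin n) (h0 : r i0 ≠ 0) :
    ∃ (g : ℕ) (ρ b : Fin n → ℤ), 0 < g ∧ (∀ i, r i = g * ρ i) ∧ ∑ i, b i * ρ i = 1 := by
  classical
  let I : Ideal ℤ := Ideal.span (Set.range r)
  obtain ⟨g, hg⟩ := (IsPrincipalIdealRing.principal I).principal
  have hg' : ∀ x, x ∈ I ↔ g ∣ x := by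
    intro x
    have : x ∈ Submodule.span ℤ {g} ↔ g ∣ x := Ideal.mem_span_singleton
    rw [← hg] at this
    exact this
  have hgr : ∀ i, g ∣ r i := fun i => (hg' _).1 (Ideal.subset_span ⟨i, rfl⟩)
  have hg0 : g ≠ 0 := by
    rintro rfl
    exact h0 (zero_dvd_iff.1 (hgr i0))
  have hgI : (g.natAbs : ℤ) ∈ I := (hg' _).2 (Int.dvd_natAbs.2 dvd_rfl)
  obtain ⟨b, hb⟩ := Ideal.mem_span_range_iff_exists_fun.1 hgI
  have hdvd : ∀ i, (g.natAbs : ℤ) ∣ r i := fun i => Int.natAbs_dvd.2 (hgr i)
  choose ρ hρ using hdvd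
  refine ⟨g.natAbs, ρ, b, Int.natAbs_pos.2 hg0, hρ, ?_⟩
  have h1 : (g.natAbs : ℤ) * ∑ i, b i * ρ i = g.natAbs * 1 := by
    rw [mul_one, Finset.mul_sum]
    conv_rhs => rw [← hb]
    refine Finset.sum_congr rfl fun i _ => ?_
    rw [hρ i]
    ring
  have h2 : (g.natAbs : ℤ) ≠ 0 := by exact_mod_cast (Int.natAbs_pos.2 hg0).ne'
  exact mul_left_cancel₀ h2 h1

theorem basis_of_top {F' K' : Type} [Field F'] [Field K'] [Algebra F' K'] {n : ℕ} {t : Fin n → K'}
    (ht : AlgebraicIndependent F' t)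
    (htop : IntermediateField.adjoin F' (Set.range t) = ⊤) : IsTranscendenceBasis F' t := by
  rw [ht.isTranscendenceBasis_iff_isAlgebraic]
  apply alg_adjoin
  rw [htop]
  exact ⟨fun z => isAlgebraic_algebraMap (⟨z, trivial⟩ : (⊤ : IntermediateField F' K'))⟩

variable {F : IntermediateField k K} {n : ℕ} {t : Fin n → K} {Bd : Place k K → Prop}
  {B : Finset (Place k F)}

theorem trdeg_of_action [hF : IsFF k F] (hT : TorusAction F t Bd B) :
    Algebra.trdeg k K = (n + 1 : ℕ) := by
  have h1 := (basis_of_top hT.indep hT.top).cardinalMk_eq_trdeg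
  have h2 := _root_.trdeg_add_eq k F (A := K)
  rw [← h2, ← h1, hF.trdeg]
  simp [add_comm]

/-- Horizontal divisors. -/
theorem a1_horizontal [CharZero k] [IsAlgClosed k] [hF : IsFF k F] (hT : TorusAction F t Bd B)
    {v : Place k K} (hv : ¬ Bd v) (htriv : ∀ f : F, v.ord (f : K) = 0) (i0 : Fin n)
    (hi0 : v.ord (t i0) ≠ 0) : Pool.Agent.W619.PL.IsA1Uniruled k K (n + 1) Bd := by
  classical
  obtain ⟨g, ρ, b, hg, hρ, hb⟩ := exists_bezout (fun i => v.ord (t i)) i0 hi0
  have hchar : CharZero F := charZero_of_injective_algebraMap (algebraMap k F).injective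
  obtain ⟨D, hD⟩ := exists_der t (basis_of_top hT.indep hT.top) (fun i => (ρ i : K) * t i)
  let δ : Derivation k K K := D.restrictScalars k
  have ht0 : ∀ i, t i ≠ 0 := fun i => hT.indep.ne_zero i
  have hδt : ∀ i, δ (t i) = (ρ i : K) * t i := hD
  have hδF : ∀ f : F, δ (f : K) = 0 := fun f => D.map_algebraMap f
  set σ : K := ∏ i, t i ^ b i with hσdef
  have hσ0 : σ ≠ 0 := Finset.prod_ne_zero_iff.2 fun i _ => zpow_ne_zero _ (ht0 i)
  have hσ : δ σ = σ := by
    rw [hσdef, ld_prod δ Finset.univ (fun i => t i ^ b i) (fun i => (b i : K) * ρ i)]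
    · have : (∑ i, (b i : K) * ρ i) = ((∑ i, b i * ρ i : ℤ) : K) := by push_cast; rfl
      rw [this, hb, Int.cast_one, one_mul]
    · intro i _
      rw [ld_zpow δ (ht0 i), hδt, mul_div_assoc, div_self (ht0 i), mul_one]
  let u : Fin n → K := fun i => t i * σ ^ (-ρ i)
  have hδu : ∀ i, δ (u i) = 0 := by
    intro i
    change δ (t i * σ ^ (-ρ i)) = 0
    rw [δ.leibniz, ld_zpow δ hσ0, hσ, div_self hσ0, hδt]
    simp only [smul_eq_mul]
    push_cast
    ring
  let E : IntermediateField k K := F ⊔ adjoin k (Set.range u)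
  have hFE : F ≤ E := le_sup_left
  have huE : ∀ i, u i ∈ E := fun i =>
    (le_sup_right : adjoin k (Set.range u) ≤ E) (subset_adjoin k _ ⟨i, rfl⟩)
  have hEc : E ≤ consts δ := by
    refine sup_le (fun f hf => hδF ⟨f, hf⟩) ?_
    rw [adjoin_le_iff]
    rintro _ ⟨i, rfl⟩
    exact hδu i
  have hfg : E.FG := by
    have h1 : F.FG := (IntermediateField.essFiniteType_iff).1 hF.ess
    have h2 : (adjoin k (Set.range u)).FG := by
      have := IntermediateField.fg_adjoin_finset (F := k) (Finset.univ.image u)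
      rwa [Finset.coe_image, Finset.coe_univ, Set.image_univ] at this
    exact IntermediateField.fg_sup h1 h2
  have hσt : Transcendental E σ := by
    intro h
    have h1 : IsAlgebraic (consts δ) σ := by
      refine h.ringHom_of_comp_eq (inclusion hEc).toRingHom (RingHom.id K)
        (inclusion hEc).injective ?_
      ext z
      rfl
    have h2 := der_of_alg δ h1
    rw [hσ] at h2
    exact hσ0 h2
  have htop : E⟮σ⟯ = ⊤ := by
    rw [eq_top_iff]
    intro x _
    have hx : x ∈ adjoin F (Set.range t) := by rw [hT.top]; trivial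
    induction hx using IntermediateField.adjoin_induction with
    | mem x hx =>
      obtain ⟨i, rfl⟩ := hx
      have h1 : t i = u i * σ ^ (ρ i) := by
        change t i = t i * σ ^ (-ρ i) * σ ^ ρ i
        rw [mul_assoc, ← zpow_add₀ hσ0, neg_add_cancel, zpow_zero, mul_one]
      rw [h1]
      exact mul_mem (E⟮σ⟯.algebraMap_mem ⟨u i, huE i⟩)
        (zpow_mem (mem_adjoin_simple_self E σ) _)
    | algebraMap c => exact E⟮σ⟯.algebraMap_mem ⟨(c : K), hFE c.2⟩
    | add x y _ _ hx hy => exact add_mem (hx mem_top) (hy mem_top)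
    | inv x _ hx => exact inv_mem (hx mem_top)
    | mul x y _ _ hx hy => exact mul_mem (hx mem_top) (hy mem_top)
  refine a1_of_field (trdeg_of_action hT) E hσt hfg htop fun P hPE hPσ => ?_
  have hPF : ∀ f : F, P.ord (f : K) = 0 := fun f => hPE _ (hFE f.2)
  have htu : ∀ i, t i = u i * σ ^ (ρ i) := by
    intro i
    change t i = t i * σ ^ (-ρ i) * σ ^ ρ i
    rw [mul_assoc, ← zpow_add₀ hσ0, neg_add_cancel, zpow_zero, mul_one]
  have hu0 : ∀ i, u i ≠ 0 := fun i => mul_ne_zero (ht0 i) (zpow_ne_zero _ hσ0)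
  have hPt : ∀ i, P.ord (t i) = ρ i * P.ord σ := by
    intro i
    conv_lhs => rw [htu i]
    rw [P.ord_mul (hu0 i) (zpow_ne_zero _ hσ0), P.ord_zpow, hPE _ (huE i), zero_add]
  rcases hPσ.eq_or_lt with h0 | hpos
  · refine hT.isOpen P (fun i => ?_) (fun c _ e => not_over_of_trivial hPF c e)
    rw [hPt, ← h0, mul_zero]
  have hterm : ∀ (Q : MvPolynomial (Fin n) F) (a : Fin n →₀ ℕ),
      term t Q a = ((Q.coeff a : F) : K) * (∏ i, u i ^ a i) * σ ^ (∑ i, (a i : ℤ) * ρ i) := by
    intro Q a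
    unfold term
    have h1 : ∏ i, t i ^ a i = (∏ i, u i ^ a i) * σ ^ (∑ i, (a i : ℤ) * ρ i) := by
      have h2 : σ ^ (∑ i, (a i : ℤ) * ρ i) = ∏ i, (σ ^ (ρ i)) ^ a i := by
        have h3 : ∀ s : Finset (Fin n), σ ^ (∑ i ∈ s, (a i : ℤ) * ρ i) =
            ∏ i ∈ s, (σ ^ (ρ i)) ^ a i := by
          intro s
          induction s using Finset.induction_on with
          | empty => simp
          | insert i s hi ih =>
            rw [Finset.sum_insert hi, Finset.prod_insert hi, zpow_add₀ hσ0, ih, mul_comm (a i : ℤ),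
              zpow_mul, zpow_natCast]
        exact h3 _
      rw [h2, ← Finset.prod_mul_distrib]
      refine Finset.prod_congr rfl fun i _ => ?_
      rw [← mul_pow, ← htu i]
    rw [h1, mul_assoc]
    rfl
  have hmono : IsMono F t P (RingHom.id K) := by
    refine isMono_of hT.indep fun Q r hQ hr => ?_
    change P.ord (MvPolynomial.aeval t Q) = r
    have hr' : ∀ a ∈ Q.support, (∑ i, (a i : ℤ) * ρ i) * P.ord σ = r := by
      intro a ha
      rw [← hr a ha]
      change _ = P.ord (term t Q a)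
      have h1 : ((Q.coeff a : F) : K) * (∏ i, u i ^ a i) ≠ 0 := by
        refine mul_ne_zero ?_ (Finset.prod_ne_zero_iff.2 fun i _ => pow_ne_zero _ (hu0 i))
        intro h
        exact (MvPolynomial.mem_support_iff.1 ha) (Subtype.ext h)
      have h2 : P.ord (((Q.coeff a : F) : K) * (∏ i, u i ^ a i)) = 0 :=
        hPE _ (mul_mem (hFE (Q.coeff a).2) (prod_mem fun i _ => pow_mem (huE i) _))
      rw [hterm, P.ord_mul h1 (zpow_ne_zero _ hσ0), P.ord_zpow, h2, zero_add]
    obtain ⟨a0, ha0⟩ := MvPolynomial.support_nonempty.2 hQ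
    set s := ∑ i, (a0 i : ℤ) * ρ i with hs
    have hsall : ∀ a ∈ Q.support, (∑ i, (a i : ℤ) * ρ i) = s := by
      intro a ha
      have h1 := hr' a ha
      rw [← hr' a0 ha0] at h1
      exact mul_right_cancel₀ hpos.ne' h1
    have hsum : MvPolynomial.aeval t Q =
        (∑ a ∈ Q.support, ((Q.coeff a : F) : K) * (∏ i, u i ^ a i)) * σ ^ s := by
      rw [aeval_eq_sum_term, Finset.sum_mul]
      refine Finset.sum_congr rfl fun a ha => ?_
      rw [hterm, hsall a ha]
    have hne := aeval_ne_zero hT.indep hQ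
    have h2 : P.ord (∑ a ∈ Q.support, ((Q.coeff a : F) : K) * (∏ i, u i ^ a i)) = 0 :=
      hPE _ (sum_mem fun a _ =>
        mul_mem (hFE (Q.coeff a).2) (prod_mem fun i _ => pow_mem (huE i) _))
    rw [hsum] at hne ⊢
    rw [P.ord_mul (left_ne_zero_of_mul hne) (zpow_ne_zero _ hσ0), P.ord_zpow, h2, zero_add]
    exact hr' a0 ha0
  have hPn : ((P.ord σ).toNat : ℤ) = P.ord σ := Int.toNat_of_nonneg hpos.le
  refine not_bd_of_mono hT hv (Or.inr ⟨i0, hi0⟩) hmono (c := (P.ord σ).toNat) (d := g) (by omega)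
    hg (fun f => ?_) (fun i => ?_) one_pos (fun f => ?_)
  · change (g : ℤ) * P.ord (f : K) = _
    rw [hPF, htriv, mul_zero, mul_zero]
  · change (g : ℤ) * P.ord (t i) = _
    have h1 : v.ord (t i) = g * ρ i := hρ i
    rw [hPn, hPt, h1]
    ring
  · change P.ord f = _
    rw [Nat.cast_one, one_mul]

end

end Pool.Agent.V8H92.TA
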