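import Pool.Agent.Y199.NN.NegA1
import Pool.Agent.W619.Y.Parts
import Pool.Agent.W602.GT.KPsef

/-!
The log canonical bundle of an `A¹`-uniruled variety is not pseudo-effective (the theorem
`Pool.Agent.N145.PL.not_psef_of_a1` of the starting repository, with fewer imports).
-/

set_option autoImplicit false
set_option linter.overlappingInstances false
set_option linter.unusedSectionVars false

open FF IntermediateField Pool.Agent.W619.PQ Pool.Agent.W619.PL Pool.Agent.W619.TW
  Pool.Agent.W619.Y Pool.Agent.W602.GT Pool.Agent.Y199.NN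

namespace Pool.Agent.V8H92.TA

variable {k K : Type} [Field k] [CharZero k] [IsAlgClosed k] [Field K] [Algebra k K]

theorem derReg_of_log {v : Place k K} {D : Derivation k K K} (h : DerLog v D) : DerReg v D := by
  intro f hf
  by_cases hf0 : f = 0
  · rw [hf0, map_zero]
    exact v.reg_zero
  · have h1 := v.reg_mul (h f) hf
    rwa [div_mul_cancel₀ _ hf0] at h1

/-- The two definitions of pseudo-effectivity agree. -/
theorem psef_iff' (n : ℕ) (Bd : Place k K → Prop) :
    Pool.Agent.W602.GT.Psef k K n Bd ↔ Pool.Agent.W619.TW.IsPsef k K n Bd := by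
  constructor
  · rintro ⟨S, h⟩
    refine ⟨S, fun M => ?_⟩
    obtain ⟨j, hj, ω, ⟨h1, h2, h3⟩, h4⟩ := h M
    exact ⟨j, hj, ω, ⟨h1, fun v hv hB D hD => h3 v hv hB D hD, fun v hv _ D hD => h2 v hv D hD⟩, h4⟩
  · rintro ⟨S, h⟩
    refine ⟨S, fun M => ?_⟩
    obtain ⟨j, hj, ω, ⟨h1, h2, h3⟩, h4⟩ := h M
    refine ⟨j, hj, ω, ⟨h1, fun v hv D hD => ?_, fun v hv hB D hD => h2 v hv hB D hD⟩, h4⟩
    by_cases hB : Bd v
    · exact h3 v hv hB D hD
    · exact h2 v hv hB D fun l => derReg_of_log (hD l)

theorem not_psef_of_a1 [Algebra.EssFiniteType k K] {n : ℕ} (htr : Algebra.trdeg k K = n)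
    {Bd : Place k K → Prop} (h : IsA1Uniruled k K n Bd) :
    ¬ Pool.Agent.W602.GT.Psef k K n Bd := by
  classical
  obtain ⟨M, iF, iA, φ, hess, htrM, hA⟩ := h
  let _ : Algebra K (RatFunc M) := φ.toRingHom.toAlgebra
  have t1 : IsScalarTower k K (RatFunc M) := IsScalarTower.of_algebraMap_eq fun c => by
    change _ = φ (algebraMap k K c)
    rw [φ.commutes]
  have hmap : ∀ f : K, algebraMap K (RatFunc M) f = φ f := fun _ => rfl
  have hXM : Transcendental M (RatFunc.X : RatFunc M) := RatFunc.transcendental_X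
  have htopM : M⟮(RatFunc.X : RatFunc M)⟯ = ⊤ := RatFunc.adjoin_X
  have hessXM : Algebra.EssFiniteType M (RatFunc M) := by
    have h1 : (⊤ : IntermediateField M (RatFunc M)).FG := by
      rw [← htopM]
      exact ⟨{RatFunc.X}, by simp⟩
    have h2 : Algebra.EssFiniteType M (⊤ : IntermediateField M (RatFunc M)) :=
      (IntermediateField.essFiniteType_iff).2 h1
    exact (Algebra.EssFiniteType.iff_of_algEquiv (IntermediateField.topEquiv
      (F := M) (E := RatFunc M))).1 h2
  have hessR : Algebra.EssFiniteType k (RatFunc M) := Algebra.EssFiniteType.comp k M (RatFunc M)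
  have htrX : IsTranscendenceBasis M (fun _ : Unit => (RatFunc.X : RatFunc M)) := by
    have h1 : AlgebraicIndependent M (fun _ : Unit => (RatFunc.X : RatFunc M)) :=
      (algebraicIndependent_unique_type_iff).2 hXM
    rw [h1.isTranscendenceBasis_iff_isAlgebraic]
    have h2 : Set.range (fun _ : Unit => (RatFunc.X : RatFunc M)) = {RatFunc.X} := by simp
    rw [h2]
    have h3 : Algebra.IsAlgebraic M⟮(RatFunc.X : RatFunc M)⟯ (RatFunc M) := by
      rw [htopM]
      exact ⟨fun z => isAlgebraic_algebraMap
        (⟨z, trivial⟩ : (⊤ : IntermediateField M (RatFunc M)))⟩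
    exact alg_adjoin h3
  have hR : Algebra.trdeg k (RatFunc M) = n := by
    have h1 := _root_.trdeg_add_eq k M (A := RatFunc M)
    have h2 : Algebra.trdeg M (RatFunc M) = 1 := by
      rw [← htrX.cardinalMk_eq_trdeg]
      simp
    rw [← h1, h2]
    exact htrM
  -- finiteness
  obtain ⟨y, hy⟩ := basis_of_trdeg htr
  have hyR : AlgebraicIndependent k (fun i => φ (y i)) := hy.1.map' φ.injective
  have hyb : IsTranscendenceBasis k (fun i => φ (y i)) := by
    refine hyR.isTranscendenceBasis_of_lift_trdeg_le_of_finite ?_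
    rw [hR]
    simp
  have halg : Algebra.IsAlgebraic K (RatFunc M) := by
    have h1 : Algebra.IsAlgebraic (IntermediateField.adjoin k (Set.range fun i => φ (y i)))
      (RatFunc M) := hyb.isAlgebraic_field
    refine ⟨fun z => ?_⟩
    have h2 := h1.isAlgebraic z
    have hle : IntermediateField.adjoin k (Set.range fun i => φ (y i)) ≤ φ.fieldRange := by
      rw [adjoin_le_iff]
      rintro _ ⟨i, rfl⟩
      exact ⟨y i, rfl⟩
    let e : K ≃ₐ[k] φ.fieldRange := AlgEquiv.ofInjectiveField φ
    let g : IntermediateField.adjoin k (Set.range fun i => φ (y i)) →+* K :=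
      (e.symm : φ.fieldRange →+* K).comp (inclusion hle).toRingHom
    refine h2.ringHom_of_comp_eq g (RingHom.id _) g.injective ?_
    ext w
    change φ (e.symm (inclusion hle w)) = (w : RatFunc M)
    have h3 : e (e.symm (inclusion hle w)) = inclusion hle w := e.apply_symm_apply _
    exact congrArg Subtype.val h3
  have hfd : FiniteDimensional K (RatFunc M) := by
    have h1 : Algebra.EssFiniteType K (RatFunc M) := Algebra.EssFiniteType.of_comp k K (RatFunc M)
    obtain ⟨s, hs⟩ := IntermediateField.fg_top K (RatFunc M)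
    have h2 : FiniteDimensional K (IntermediateField.adjoin K (s : Set (RatFunc M))) :=
      IntermediateField.finiteDimensional_adjoin fun x _ => (halg.isAlgebraic x).isIntegral
    rw [hs] at h2
    exact h2.equiv IntermediateField.topEquiv.toLinearEquiv
  intro hps
  rw [psef_iff'] at hps
  have hT := (Pool.Agent.W619.Y.pTRANS.{0, 0} k K (RatFunc M) n htr
    (fun y hy => fin_over' y hy) Bd).1 hps
  rw [← psef_iff'] at hT
  -- the derivation
  have hcM : CharZero M := charZero_of_injective_algebraMap (algebraMap k M).injective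
  obtain ⟨d0, hd0⟩ := exists_der (L := M) (fun _ : Unit => (RatFunc.X : RatFunc M)) htrX
    (fun _ => RatFunc.X)
  let δ : Derivation k (RatFunc M) (RatFunc M) := d0.restrictScalars k
  have hδX : δ RatFunc.X = RatFunc.X := hd0 ()
  have hδM : ∀ c : M, δ (algebraMap M (RatFunc M) c) = 0 := fun c => d0.map_algebraMap c
  have htop : (consts δ)⟮(RatFunc.X : RatFunc M)⟯ = ⊤ := by
    rw [eq_top_iff]
    intro f _
    have hf : f ∈ M⟮(RatFunc.X : RatFunc M)⟯ := by rw [htopM]; exact mem_top
    induction hf using IntermediateField.adjoin_induction with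
    | mem x hx =>
      rw [Set.mem_singleton_iff] at hx
      rw [hx]
      exact IntermediateField.mem_adjoin_simple_self _ _
    | algebraMap c =>
      exact (consts δ)⟮(RatFunc.X : RatFunc M)⟯.algebraMap_mem ⟨algebraMap M (RatFunc M) c, hδM c⟩
    | add x y _ _ hx hy => exact add_mem (hx mem_top) (hy mem_top)
    | inv x _ hx => exact inv_mem (hx mem_top)
    | mul x y _ _ hx hy => exact mul_mem (hx mem_top) (hy mem_top)
  refine not_psef hR δ RatFunc.X_ne_zero hδX htop (fun P h1 h2 hBP => ?_) hT
  obtain ⟨v, e, hov, hb⟩ := hBP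
  let w : Place M (RatFunc M) :=
    { ord := P.ord
      ord_zero := P.ord_zero
      ord_mul := fun {f g} hf hg => P.ord_mul hf hg
      ord_add := fun {f g} hf hg hfg => P.ord_add hf hg hfg
      ord_const := fun {c} hc => h1 _ (hδM c) ((map_ne_zero _).2 hc)
      surj := P.surj }
  exact hA w (Or.inr h2) v e hov.1 (fun f => hov.2 f) hb

end Pool.Agent.V8H92.TA
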