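import Pool.Agent.V8H92.TA.Hor

/-!
Lifting affine lines from the quotient curve.
-/

set_option autoImplicit false
set_option linter.unusedSectionVars false

open FF IntermediateField Pool.Agent.W603.LV Pool.Agent.W619.PQ

namespace Pool.Agent.V8H92.TA

section

variable (k M : Type) [Field k] [Field M] [Algebra k M]

/-- The inclusion of the rational functions with coefficients in `k`. -/
noncomputable def inc : RatFunc k →ₐ[k] RatFunc M :=
  RatFunc.mapAlgHom (Polynomial.mapAlgHom (Algebra.ofId k M)) (by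
    intro p hp
    rw [mem_nonZeroDivisors_iff_ne_zero] at hp
    rw [Submonoid.mem_comap, mem_nonZeroDivisors_iff_ne_zero]
    exact (Polynomial.map_ne_zero_iff (algebraMap k M).injective).2 hp)

variable {k M}

theorem inc_poly (p : Polynomial k) : inc k M (algebraMap (Polynomial k) (RatFunc k) p) =
    algebraMap (Polynomial M) (RatFunc M) (p.map (algebraMap k M)) := by
  have h := RatFunc.map_apply_div (R := M) (Polynomial.mapAlgHom (Algebra.ofId k M)) (by
    intro p hp
    rw [mem_nonZeroDivisors_iff_ne_zero] at hp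
    rw [Submonoid.mem_comap, mem_nonZeroDivisors_iff_ne_zero]
    exact (Polynomial.map_ne_zero_iff (algebraMap k M).injective).2 hp) p 1
  rw [map_one, map_one, div_one, map_one, div_one] at h
  exact h

theorem inc_X : inc k M RatFunc.X = RatFunc.X := by
  rw [← RatFunc.algebraMap_X, inc_poly, Polynomial.map_X, RatFunc.algebraMap_X]

/-- Algebraically independent elements remain independent over the rational functions. -/
theorem sum_ne_zero {n : ℕ} {y : Fin n → M} (hy : AlgebraicIndependent k y)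
    (S : Finset (Fin n →₀ ℕ)) (u : (Fin n →₀ ℕ) → RatFunc k) {a0 : Fin n →₀ ℕ} (ha0 : a0 ∈ S)
    (hu : u a0 ≠ 0) :
    ∑ a ∈ S, inc k M (u a) * algebraMap M (RatFunc M) (∏ i, y i ^ a i) ≠ 0 := by
  classical
  intro h0
  obtain ⟨d, hd⟩ := IsLocalization.exist_integer_multiples (nonZeroDivisors (Polynomial k)) S u
  have hd0 : (d : Polynomial k) ≠ 0 := nonZeroDivisors.ne_zero d.2
  have hp : ∀ a, ∃ p : Polynomial k, a ∈ S →
      algebraMap (Polynomial k) (RatFunc k) p = algebraMap (Polynomial k) (RatFunc k) d * u a := by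
    intro a
    by_cases ha : a ∈ S
    · obtain ⟨p, hp⟩ := hd a ha
      refine ⟨p, fun _ => ?_⟩
      rw [hp, Algebra.smul_def]
    · exact ⟨0, fun h => absurd h ha⟩
  choose p hp using hp
  have h1 : algebraMap (Polynomial M) (RatFunc M)
      (∑ a ∈ S, (p a).map (algebraMap k M) * Polynomial.C (∏ i, y i ^ a i)) = 0 := by
    have h2 := congrArg (fun z => inc k M (algebraMap (Polynomial k) (RatFunc k) d) * z) h0
    simp only [mul_zero] at h2
    rw [← h2, Finset.mul_sum, map_sum]
    refine Finset.sum_congr rfl fun a ha => ?_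
    rw [← mul_assoc, ← map_mul (inc k M), ← hp a ha, inc_poly, map_mul]
    rfl
  have h2 := (map_eq_zero_iff _ (IsFractionRing.injective (Polynomial M) (RatFunc M))).1 h1
  have h3 : ∀ j, (p a0).coeff j = 0 := by
    intro j
    have h4 := congrArg (fun P => Polynomial.coeff P j) h2
    simp only [Polynomial.finsetSum_coeff, Polynomial.coeff_mul_C, Polynomial.coeff_map,
      Polynomial.coeff_zero] at h4
    have h5 : MvPolynomial.aeval y (∑ a ∈ S, MvPolynomial.monomial a ((p a).coeff j)) = 0 := by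
      rw [map_sum, ← h4]
      refine Finset.sum_congr rfl fun a _ => ?_
      rw [MvPolynomial.aeval_monomial, Finsupp.prod_fintype _ _ (fun i => pow_zero _)]
    have h6 := (injective_iff_map_eq_zero _).1 hy _ h5
    have h7 := congrArg (MvPolynomial.coeff a0) h6
    rw [MvPolynomial.coeff_sum] at h7
    simp only [MvPolynomial.coeff_monomial] at h7
    rw [Finset.sum_ite_eq', if_pos ha0, MvPolynomial.coeff_zero] at h7
    exact h7
  have h4 : p a0 = 0 := Polynomial.ext fun j => by rw [h3, Polynomial.coeff_zero]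
  have h5 := hp a0 ha0
  rw [h4, map_zero] at h5
  have h6 : algebraMap (Polynomial k) (RatFunc k) d ≠ 0 :=
    (map_ne_zero_iff _ (IsFractionRing.injective (Polynomial k) (RatFunc k))).2 hd0
  exact (mul_ne_zero h6 hu) h5.symm

end

section

variable {k : Type} [Field k]

theorem isFF_ratFunc : IsFF k (RatFunc k) := by
  have h1 : k⟮(RatFunc.X : RatFunc k)⟯ = ⊤ := RatFunc.adjoin_X
  refine IsFF.of_finite RatFunc.transcendental_X ?_
  rw [h1]
  refine ⟨⟨{1}, ?_⟩⟩
  rw [eq_top_iff]
  intro z _
  rw [Finset.coe_singleton, Submodule.mem_span_singleton]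
  exact ⟨⟨z, trivial⟩, by rw [Algebra.smul_def, mul_one]; rfl⟩

variable [CharZero k] [IsAlgClosed k]

/-- Functions on the affine line with prescribed zeros and poles. -/
theorem exists_orders (N : Place k (RatFunc k) → ℤ) (hN : {q | N q ≠ 0}.Finite) :
    ∃ h : RatFunc k, h ≠ 0 ∧ ∀ q : Place k (RatFunc k), 0 ≤ q.ord RatFunc.X → q.ord h = N q := by
  classical
  have hFF : IsFF k (RatFunc k) := isFF_ratFunc
  have hx : k⟮(RatFunc.X : RatFunc k)⟯ = ⊤ := RatFunc.adjoin_X
  have ht := transcendental_of_top hx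
  obtain ⟨D, hD, hDx⟩ := exists_ddx ht
  have ha : ∀ Q : Place k (RatFunc k), ∃ a : k, 0 ≤ Q.ord RatFunc.X →
      Q.ord (RatFunc.X - algebraMap k (RatFunc k) a) = 1 ∧
      ∀ Q' : Place k (RatFunc k), 0 < Q'.ord (RatFunc.X - algebraMap k (RatFunc k) a) → Q' = Q := by
    intro Q
    by_cases hQ : 0 ≤ Q.ord RatFunc.X
    · obtain ⟨-, a, ha⟩ := vo_finite_place hx hD hDx Q hQ
      exact ⟨a, fun _ => ha⟩
    · exact ⟨0, fun h => absurd h hQ⟩
  choose a ha using ha
  let S := hN.toFinset.filter fun q => 0 ≤ q.ord RatFunc.X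
  have hne : ∀ q, (RatFunc.X - algebraMap k (RatFunc k) (a q)) ≠ 0 := fun q => sub_const_ne ht _
  refine ⟨∏ q ∈ S, (RatFunc.X - algebraMap k (RatFunc k) (a q)) ^ (N q),
    Finset.prod_ne_zero_iff.2 fun q _ => zpow_ne_zero _ (hne q), fun q hq => ?_⟩
  rw [ord_prod _ _ _ fun q _ => zpow_ne_zero _ (hne q)]
  have h2 : ∀ q' ∈ S, q' ≠ q → q.ord ((RatFunc.X - algebraMap k (RatFunc k) (a q')) ^ (N q')) = 0 := by
    intro q' hq' hqq
    have h3 : 0 ≤ q.ord (RatFunc.X - algebraMap k (RatFunc k) (a q')) := by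
      have h4 : Ge q 0 (RatFunc.X - algebraMap k (RatFunc k) (a q')) :=
        Ge.sub (Or.inr hq) (Ge.const _)
      exact h4.resolve_left (hne q')
    have h5 : q.ord (RatFunc.X - algebraMap k (RatFunc k) (a q')) = 0 := by
      by_contra h5
      have h6 := (ha q' (Finset.mem_filter.1 hq').2).2 q (by omega)
      exact hqq h6.symm
    rw [q.ord_zpow, h5, mul_zero]
  by_cases hqS : q ∈ S
  · rw [Finset.sum_eq_single_of_mem q hqS h2, q.ord_zpow, (ha q hq).1, mul_one]
  · have h3 : N q = 0 := by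
      by_contra h
      exact hqS (Finset.mem_filter.2 ⟨hN.mem_toFinset.2 h, hq⟩)
    rw [h3]
    exact Finset.sum_eq_zero fun q' hq' => h2 q' hq' fun h => hqS (h ▸ hq')

end

section

variable {k : Type} [Field k]

theorem rat_algebraic {F0 E0 : Type} [Field F0] [Field E0] [Algebra k F0] [Algebra k E0]
    [IsFF k F0] [IsFF k E0] (g : F0 →ₐ[k] E0) :
    letI : Algebra F0 E0 := g.toRingHom.toAlgebra
    Algebra.IsAlgebraic F0 E0 := by
  let _ : Algebra F0 E0 := g.toRingHom.toAlgebra
  obtain ⟨z, hz⟩ := IsFF.exists_transcendental (k := k) (K := F0)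
  have hgz : Transcendental k (g z) := fun h => hz ((isAlgebraic_algHom_iff g g.injective).1 h)
  have h1 := IsFF.isAlgebraic hgz
  refine ⟨fun x => ?_⟩
  have h2 := h1.isAlgebraic x
  have hle : k⟮g z⟯ ≤ g.fieldRange := by
    rw [adjoin_simple_le_iff]
    exact ⟨z, rfl⟩
  let e : F0 ≃ₐ[k] g.fieldRange := AlgEquiv.ofInjectiveField g
  let j : k⟮g z⟯ →+* F0 := (e.symm : g.fieldRange →+* F0).comp (inclusion hle).toRingHom
  refine h2.ringHom_of_comp_eq j (RingHom.id _) j.injective ?_
  ext w
  change g (e.symm (inclusion hle w)) = (w : E0)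
  have h3 : e (e.symm (inclusion hle w)) = inclusion hle w := e.apply_symm_apply _
  exact congrArg Subtype.val h3

/-- The image of a point. -/
theorem point_below {F0 E0 : Type} [Field F0] [Field E0] [Algebra k F0] [Algebra k E0]
    [IsFF k F0] [IsFF k E0] (g : F0 →ₐ[k] E0) (q : Place k E0) :
    ∃ (e : ℕ) (c : Place k F0), 0 < e ∧ ∀ f, q.ord (g f) = e * c.ord f := by
  let _ : Algebra F0 E0 := g.toRingHom.toAlgebra
  have hst' : IsScalarTower k F0 E0 := IsScalarTower.of_algebraMap_eq fun c => by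
    change _ = g (algebraMap k F0 c)
    rw [AlgHom.commutes]
  have halg : Algebra.IsAlgebraic F0 E0 := rat_algebraic g
  have hne : ∃ f : F0, q.ord (algebraMap F0 E0 f) ≠ 0 := by
    by_contra hcon
    push Not at hcon
    obtain ⟨z, -, hz⟩ := q.surj
    have h1 := ord_eq_zero_of_alg (K0 := F0) (K1 := E0) (K2 := E0) q hcon z
    change q.ord z = 0 at h1
    omega
  obtain ⟨e', c, hc⟩ := exists_over (K := F0) q hne
  exact ⟨e', c, hc.1, hc.2⟩

end

end Pool.Agent.V8H92.TA
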