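import Pool.Agent.V8H92.TA.Tri
import Pool.Agent.V8H92.TA.Ver

/-!
Affine lines on orbifold projective lines of positive Euler characteristic.
-/

set_option autoImplicit false
set_option linter.unusedSectionVars false

open FF IntermediateField Pool.Agent.W603.LV Pool.Agent.W619.PQ Pool.Agent.W619.PL

namespace Pool.Agent.V8H92.TA

section

variable {k F0 : Type} [Field k] [Field F0] [Algebra k F0]

theorem exists_hom {x : F0} (hx : k⟮x⟯ = ⊤) (ht : Transcendental k x) {G : RatFunc k}
    (hG : Transcendental k G) : ∃ g : F0 →ₐ[k] RatFunc k, g x = G := by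
  have h1 : AlgebraicIndependent k (fun _ : Fin 1 => x) :=
    (algebraicIndependent_unique_type_iff).2 ht
  have h2 : AlgebraicIndependent k (fun _ : Fin 1 => G) :=
    (algebraicIndependent_unique_type_iff).2 hG
  obtain ⟨g, hg⟩ := exists_lift h1 (by
    rw [Set.range_const]
    exact hx) h2
  exact ⟨g, hg 0⟩

theorem ge_ev {q : Place k (RatFunc k)} (hq : 0 ≤ q.ord RatFunc.X) (P : Polynomial k) :
    Ge q 0 (algebraMap (Polynomial k) (RatFunc k) P) := by
  have h1 := ge_aeval q (π := RatFunc.X) (Or.inr hq) P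
  have h2 : Polynomial.aeval (RatFunc.X : RatFunc k) P =
      algebraMap (Polynomial k) (RatFunc k) P := by
    rw [← RatFunc.algebraMap_X, Polynomial.aeval_algebraMap_apply, Polynomial.aeval_X_left_apply]
  rwa [h2] at h1

theorem ord_ev_nonneg {q : Place k (RatFunc k)} (hq : 0 ≤ q.ord RatFunc.X) (P : Polynomial k) :
    0 ≤ q.ord (algebraMap (Polynomial k) (RatFunc k) P) := by
  rcases ge_ev hq P with h | h
  · rw [h, q.ord_zero]
  · exact h

theorem ord_of_coprime {q : Place k (RatFunc k)} (hq : 0 ≤ q.ord RatFunc.X) {A C : Polynomial k}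
    (h : IsCoprime A C) (hA : 0 < q.ord (algebraMap (Polynomial k) (RatFunc k) A)) :
    q.ord (algebraMap (Polynomial k) (RatFunc k) C) = 0 := by
  by_contra hC
  have hC' : 0 < q.ord (algebraMap (Polynomial k) (RatFunc k) C) :=
    lt_of_le_of_ne (ord_ev_nonneg hq C) (Ne.symm hC)
  obtain ⟨U, V, hUV⟩ := h
  have h1 : Ge q 1 (algebraMap (Polynomial k) (RatFunc k) (U * A)) := by
    rw [map_mul]
    have := (ge_ev hq U).mul (N := 0) (M := 1) (Or.inr (by omega) :
      Ge q 1 (algebraMap (Polynomial k) (RatFunc k) A))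
    simpa using this
  have h2 : Ge q 1 (algebraMap (Polynomial k) (RatFunc k) (V * C)) := by
    rw [map_mul]
    have := (ge_ev hq V).mul (N := 0) (M := 1) (Or.inr (by omega) :
      Ge q 1 (algebraMap (Polynomial k) (RatFunc k) C))
    simpa using this
  have h3 := h1.add h2
  rw [← map_add, hUV, map_one] at h3
  rcases h3 with h3 | h3
  · exact one_ne_zero h3
  · rw [q.ord_one] at h3
    omega

variable [CharZero k] [IsAlgClosed k] [IsFF k F0]

/-- The affine line over a projective line with one puncture and one multiple point. -/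
theorem line_two {x0 : F0} (hx0 : k⟮x0⟯ = ⊤) {c₁ c₂ : Place k F0} (hne : c₁ ≠ c₂) {m : ℕ}
    (hm : 1 ≤ m) : ∃ g : F0 →ₐ[k] RatFunc k, ∀ q : Place k (RatFunc k), 0 ≤ q.ord RatFunc.X →
      ∀ (c : Place k F0) (e : ℕ), 0 < e → (∀ f, q.ord (g f) = e * c.ord f) →
        c ≠ c₁ ∧ (c = c₂ → m ∣ e) := by
  obtain ⟨x, hx, hx1⟩ := exists_generator_pole hx0 c₁
  obtain ⟨P, hP, hP2⟩ := pole_unique hx
  have hc2 : 0 ≤ c₂.ord x := by
    by_contra hcon
    exact hne ((hP2 c₁ hx1).trans (hP2 c₂ (by omega)).symm)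
  obtain ⟨D, hD, hDx⟩ := exists_ddx (transcendental_of_top hx)
  obtain ⟨-, a, ha, -⟩ := vo_finite_place hx hD hDx c₂ hc2
  have hx' := top_sub hx a
  have ht' := transcendental_of_top hx'
  have hx1' : c₁.ord (x - algebraMap k F0 a) < 0 := by
    have hx00 : x ≠ 0 := by
      rintro rfl
      rw [c₁.ord_zero] at hx1
      omega
    by_cases ha0 : a = 0
    · rw [ha0, map_zero, sub_zero]
      exact hx1
    · have h2 : c₁.ord (-(algebraMap k F0 a)) = 0 := by rw [c₁.ord_neg, c₁.ord_const ha0]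
      have h3 := c₁.ord_add_eq (f := x) (g := -(algebraMap k F0 a)) hx00 (by simpa using ha0)
        (by omega)
      rw [← sub_eq_add_neg] at h3
      omega
  obtain ⟨g, hg⟩ := exists_hom hx' ht' (G := RatFunc.X ^ m)
    (RatFunc.transcendental_X.pow (by omega))
  refine ⟨g, fun q hq c e he hce => ?_⟩
  have h1 := hce (x - algebraMap k F0 a)
  rw [hg, q.ord_pow] at h1
  have hez : (0 : ℤ) < e := by exact_mod_cast he
  constructor
  · rintro rfl
    have h2 : 0 ≤ (m : ℤ) * q.ord RatFunc.X := mul_nonneg (by positivity) hq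
    rw [h1] at h2
    have := mul_neg_of_pos_of_neg hez hx1'
    omega
  · rintro rfl
    rw [ha, mul_one] at h1
    exact Int.natCast_dvd_natCast.1 ⟨_, h1.symm⟩

/-- The affine line over a projective line with three multiple points. -/
theorem line_three {x0 : F0} (hx0 : k⟮x0⟯ = ⊤) {c₁ c₂ c₃ : Place k F0} (h12 : c₁ ≠ c₂)
    (h13 : c₁ ≠ c₃) (h23 : c₂ ≠ c₃) {a b c : ℕ} (ha : 1 ≤ a) (hc1 : 1 ≤ c) (hT : Triple k a b c) :
    ∃ g : F0 →ₐ[k] RatFunc k, ∀ q : Place k (RatFunc k), 0 ≤ q.ord RatFunc.X →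
      ∀ (p : Place k F0) (e : ℕ), 0 < e → (∀ f, q.ord (g f) = e * p.ord f) →
        (p = c₁ → a ∣ e) ∧ (p = c₂ → b ∣ e) ∧ (p = c₃ → c ∣ e) := by
  obtain ⟨x, hx, hx3⟩ := exists_generator_pole hx0 c₃
  obtain ⟨P, hP, hP2⟩ := pole_unique hx
  have hP3 := hP2 c₃ hx3
  subst hP3
  have hfin : ∀ Q : Place k F0, Q ≠ c₃ → 0 ≤ Q.ord x := by
    intro Q hQ
    by_contra hcon
    exact hQ (hP2 Q (by omega))
  obtain ⟨D, hD, hDx⟩ := exists_ddx (transcendental_of_top hx)
  obtain ⟨-, a1, ha1, ha1'⟩ := vo_finite_place hx hD hDx c₁ (hfin c₁ h13)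
  obtain ⟨-, a2, ha2, ha2'⟩ := vo_finite_place hx hD hDx c₂ (hfin c₂ h23)
  set δ := a2 - a1 with hδ
  have hδ0 : δ ≠ 0 := by
    intro h
    have : a2 = a1 := sub_eq_zero.1 h
    rw [this] at ha2
    exact h12 (ha1' c₂ (by omega)).symm
  have hx' := top_sub hx a1
  have ht' := transcendental_of_top hx'
  have hx3' : c₃.ord (x - algebraMap k F0 a1) = -1 := by
    have hx00 : x ≠ 0 := by
      rintro rfl
      rw [c₃.ord_zero] at hP
      omega
    by_cases ha0 : a1 = 0
    · rw [ha0, map_zero, sub_zero]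
      exact hP
    · have h2 : c₃.ord (-(algebraMap k F0 a1)) = 0 := by rw [c₃.ord_neg, c₃.ord_const ha0]
      have h3 := c₃.ord_add_eq (f := x) (g := -(algebraMap k F0 a1)) hx00 (by simpa using ha0)
        (by omega)
      rw [← sub_eq_add_neg] at h3
      omega
  obtain ⟨A, B, C, α, β, γ, hα, hβ, hγ, heq, hcop, hdeg⟩ := hT
  let ev := algebraMap (Polynomial k) (RatFunc k)
  have hev0 : ∀ P : Polynomial k, P ≠ 0 → ev P ≠ 0 := fun P hP =>
    (map_ne_zero_iff _ (IsFractionRing.injective (Polynomial k) (RatFunc k))).2 hP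
  have hA0 : A ≠ 0 := by
    rintro rfl
    exact hdeg Polynomial.natDegree_zero
  have hC0 : C ≠ 0 := by
    rintro rfl
    rw [isCoprime_zero_right] at hcop
    exact hdeg (Polynomial.natDegree_eq_zero_of_isUnit hcop)
  have hcst : ∀ r : k, ev (Polynomial.C r) = algebraMap k (RatFunc k) r := fun r => by
    rw [IsScalarTower.algebraMap_apply k (Polynomial k) (RatFunc k)]
    rfl
  set G : RatFunc k := (ev (Polynomial.C α) * ev A ^ a) / (ev (Polynomial.C γ) * ev C ^ c) with hG
  have hden : ev (Polynomial.C γ) * ev C ^ c ≠ 0 :=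
    mul_ne_zero (hev0 _ (Polynomial.C_ne_zero.2 hγ)) (pow_ne_zero _ (hev0 _ hC0))
  have hG1 : 1 - G = (ev (Polynomial.C β) * ev B ^ b) / (ev (Polynomial.C γ) * ev C ^ c) := by
    rw [hG, eq_div_iff hden, sub_mul, div_mul_cancel₀ _ hden, one_mul]
    have h1 := congrArg ev heq
    rw [map_add, map_mul, map_mul, map_mul, map_pow, map_pow, map_pow] at h1
    rw [← h1]
    ring
  have hordG : ∀ q : Place k (RatFunc k), q.ord G = a * q.ord (ev A) - c * q.ord (ev C) := by
    intro q
    rw [hG, q.ord_div (mul_ne_zero (hev0 _ (Polynomial.C_ne_zero.2 hα))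
      (pow_ne_zero _ (hev0 _ hA0))) hden, q.ord_mul (hev0 _ (Polynomial.C_ne_zero.2 hα))
      (pow_ne_zero _ (hev0 _ hA0)), q.ord_mul (hev0 _ (Polynomial.C_ne_zero.2 hγ))
      (pow_ne_zero _ (hev0 _ hC0)), hcst, hcst, q.ord_const hα, q.ord_const hγ, q.ord_pow,
      q.ord_pow]
    ring
  have hGt : Transcendental k G := by
    obtain ⟨s, hs⟩ := IsAlgClosed.exists_root A (by
      intro h
      exact hdeg (Polynomial.natDegree_eq_of_degree_eq_some h))
    obtain ⟨A', hA'⟩ := Polynomial.dvd_iff_isRoot.2 hs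
    have hFF : IsFF k (RatFunc k) := isFF_ratFunc
    obtain ⟨q, hq, -⟩ := zero_unique (top_sub (k := k) (x := (RatFunc.X : RatFunc k))
      RatFunc.adjoin_X s)
    have hqX : 0 ≤ q.ord RatFunc.X := by
      have h1 : Ge q 0 (RatFunc.X : RatFunc k) := by
        have h2 : Ge q 0 (RatFunc.X - algebraMap k (RatFunc k) s) := Or.inr (by omega)
        have h3 := h2.add (Ge.const (P := q) s)
        rwa [sub_add_cancel] at h3
      exact h1.resolve_left RatFunc.X_ne_zero
    have hA'0 : A' ≠ 0 := by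
      rintro rfl
      rw [mul_zero] at hA'
      exact hA0 hA'
    have hqA : 0 < q.ord (ev A) := by
      have h1 : ev (Polynomial.X - Polynomial.C s) = RatFunc.X - algebraMap k (RatFunc k) s := by
        rw [map_sub, hcst]
        rfl
      rw [hA', map_mul, q.ord_mul (hev0 _ (Polynomial.X_sub_C_ne_zero s)) (hev0 _ hA'0), h1, hq]
      have := ord_ev_nonneg hqX A'
      change 0 ≤ q.ord (ev A') at this
      omega
    have hqC := ord_of_coprime hqX hcop hqA
    refine q.transcendental_of_ord_ne ?_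
    rw [hordG]
    change q.ord (ev C) = 0 at hqC
    rw [hqC, mul_zero, sub_zero]
    have : (1 : ℤ) ≤ a := by exact_mod_cast ha
    nlinarith
  have hGt' : Transcendental k (algebraMap k (RatFunc k) δ * G) := by
    intro h
    apply hGt
    have h1 : G = algebraMap k (RatFunc k) δ⁻¹ * (algebraMap k (RatFunc k) δ * G) := by
      rw [← mul_assoc, ← map_mul, inv_mul_cancel₀ hδ0, map_one, one_mul]
    rw [h1]
    exact (isAlgebraic_algebraMap _).mul h
  obtain ⟨g, hg⟩ := exists_hom hx' ht' hGt'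
  have hδK : algebraMap k (RatFunc k) δ ≠ 0 := (map_ne_zero _).2 hδ0
  have hG0 : G ≠ 0 := fun h => hGt (by rw [h]; exact isAlgebraic_zero)
  have hordg : ∀ q : Place k (RatFunc k), q.ord (g (x - algebraMap k F0 a1)) = q.ord G := by
    intro q
    rw [hg, q.ord_mul hδK hG0, q.ord_const hδ0, zero_add]
  have hgx2 : g (x - algebraMap k F0 a2) = algebraMap k (RatFunc k) (-δ) * (1 - G) := by
    have h1 : x - algebraMap k F0 a2 = (x - algebraMap k F0 a1) - algebraMap k F0 δ := by
      rw [hδ, map_sub]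
      ring
    rw [h1, map_sub, hg, AlgHom.commutes, map_neg]
    ring
  refine ⟨g, fun q hq p e he hpe => ⟨?_, ?_, ?_⟩⟩
  · rintro rfl
    have h1 := hpe (x - algebraMap k F0 a1)
    rw [hordg, hordG, ha1, mul_one] at h1
    have hez : (0 : ℤ) < e := by exact_mod_cast he
    have hA := ord_ev_nonneg hq A
    have hC := ord_ev_nonneg hq C
    change 0 ≤ q.ord (ev A) at hA
    change 0 ≤ q.ord (ev C) at hC
    have h2 : 0 < q.ord (ev A) := by
      rcases hA.eq_or_lt with h | h
      · rw [← h, mul_zero] at h1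
        have : 0 ≤ (c : ℤ) * q.ord (ev C) := mul_nonneg (by positivity) hC
        omega
      · exact h
    have h3 : q.ord (ev C) = 0 := ord_of_coprime hq hcop h2
    rw [h3, mul_zero, sub_zero] at h1
    exact Int.natCast_dvd_natCast.1 ⟨_, h1.symm⟩
  · rintro rfl
    have h1 := hpe (x - algebraMap k F0 a2)
    have hez : (0 : ℤ) < e := by exact_mod_cast he
    have h10 : 1 - G ≠ 0 := by
      intro h
      rw [hgx2, h, mul_zero, q.ord_zero, ha2, mul_one] at h1
      omega
    rw [hgx2, q.ord_mul ((map_ne_zero _).2 (neg_ne_zero.2 hδ0)) h10,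
      q.ord_const (neg_ne_zero.2 hδ0), zero_add, ha2, mul_one] at h1
    have hnum : ev (Polynomial.C β) * ev B ^ b ≠ 0 := by
      intro h
      rw [h, zero_div] at hG1
      exact h10 hG1
    have hBb : ev B ^ b ≠ 0 := right_ne_zero_of_mul hnum
    rw [hG1, q.ord_div hnum hden, q.ord_mul (hev0 _ (Polynomial.C_ne_zero.2 hβ)) hBb,
      q.ord_mul (hev0 _ (Polynomial.C_ne_zero.2 hγ)) (pow_ne_zero _ (hev0 _ hC0)), hcst, hcst,
      q.ord_const hβ, q.ord_const hγ, q.ord_pow, q.ord_pow, zero_add, zero_add] at h1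
    have hB := ord_ev_nonneg hq B
    have hC := ord_ev_nonneg hq C
    change 0 ≤ q.ord (ev B) at hB
    change 0 ≤ q.ord (ev C) at hC
    have h2 : 0 < q.ord (ev B) := by
      rcases hB.eq_or_lt with h | h
      · rw [← h, mul_zero] at h1
        have : 0 ≤ (c : ℤ) * q.ord (ev C) := mul_nonneg (by positivity) hC
        omega
      · exact h
    have hb0 : b ≠ 0 := by
      rintro rfl
      rw [Nat.cast_zero, zero_mul, zero_sub] at h1
      have : 0 ≤ (c : ℤ) * q.ord (ev C) := mul_nonneg (by positivity) hC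
      omega
    have h3 : q.ord (ev C) = 0 := by
      by_contra hcon
      have hC' : 0 < q.ord (ev C) := lt_of_le_of_ne hC (Ne.symm hcon)
      -- then `A` vanishes as well
      have h4 := ord_of_coprime hq hcop.symm hC'
      change q.ord (ev A) = 0 at h4
      have h5 : Ge q 1 (ev (Polynomial.C α * A ^ a)) := by
        have h6 : Polynomial.C α * A ^ a = Polynomial.C γ * C ^ c - Polynomial.C β * B ^ b := by
          rw [← heq]; ring
        rw [h6, map_sub, map_mul, map_mul, map_pow, map_pow]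
        refine Ge.sub (Or.inr ?_) (Or.inr ?_)
        · rw [q.ord_mul (hev0 _ (Polynomial.C_ne_zero.2 hγ)) (pow_ne_zero _ (hev0 _ hC0)), hcst,
            q.ord_const hγ, q.ord_pow]
          have : (1 : ℤ) ≤ c := by exact_mod_cast (by omega : 1 ≤ c)
          nlinarith
        · rw [q.ord_mul (hev0 _ (Polynomial.C_ne_zero.2 hβ)) hBb, hcst,
            q.ord_const hβ, q.ord_pow]
          have : (1 : ℤ) ≤ b := by exact_mod_cast (by omega : 1 ≤ b)
          nlinarith
      rw [map_mul, map_pow] at h5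
      rcases h5 with h5 | h5
      · exact mul_ne_zero (hev0 _ (Polynomial.C_ne_zero.2 hα)) (pow_ne_zero _ (hev0 _ hA0)) h5
      · rw [q.ord_mul (hev0 _ (Polynomial.C_ne_zero.2 hα)) (pow_ne_zero _ (hev0 _ hA0)), hcst,
          q.ord_const hα, q.ord_pow, h4] at h5
        omega
    rw [h3, mul_zero, sub_zero] at h1
    exact Int.natCast_dvd_natCast.1 ⟨_, h1.symm⟩
  · rintro rfl
    have h1 := hpe (x - algebraMap k F0 a1)
    rw [hordg, hordG, hx3'] at h1
    have hez : (0 : ℤ) < e := by exact_mod_cast he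
    have hA := ord_ev_nonneg hq A
    have hC := ord_ev_nonneg hq C
    change 0 ≤ q.ord (ev A) at hA
    change 0 ≤ q.ord (ev C) at hC
    have h2 : 0 < q.ord (ev C) := by
      rcases hC.eq_or_lt with h | h
      · rw [← h, mul_zero] at h1
        have : 0 ≤ (a : ℤ) * q.ord (ev A) := mul_nonneg (by positivity) hA
        omega
      · exact h
    have h3 : q.ord (ev A) = 0 := ord_of_coprime hq hcop.symm h2
    rw [h3, mul_zero, zero_sub] at h1
    exact Int.natCast_dvd_natCast.1 ⟨q.ord (ev C), by linarith⟩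

/-- **Affine lines on orbifold projective lines.** The number `μ c` is the multiplicity of the
point `c`, and `0` if `c` is a puncture. -/
theorem exists_orbifold_line {x0 : F0} (hx0 : k⟮x0⟯ = ⊤) (B : Finset (Place k F0))
    (μ : Place k F0 → ℕ) (hμ : ∀ c ∉ B, μ c = 1)
    (hsum : ∑ c ∈ B, (1 - 1 / (μ c : ℚ)) < 2) :
    ∃ g : F0 →ₐ[k] RatFunc k, ∀ q : Place k (RatFunc k), 0 ≤ q.ord RatFunc.X →
      ∀ (c : Place k F0) (e : ℕ), 0 < e → (∀ f, q.ord (g f) = e * c.ord f) →
        μ c ≠ 0 ∧ μ c ∣ e := by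
  classical
  set B' := B.filter fun c => μ c ≠ 1 with hB'
  have hone : ∀ c, c ∉ B' → μ c = 1 := by
    intro c hc
    by_cases hcB : c ∈ B
    · by_contra h
      exact hc (Finset.mem_filter.2 ⟨hcB, h⟩)
    · exact hμ c hcB
  have hsum' : ∑ c ∈ B', (1 - 1 / (μ c : ℚ)) < 2 := by
    refine lt_of_le_of_lt (le_of_eq ?_) hsum
    rw [hB', Finset.sum_filter_of_ne]
    intro c _ hne h1
    apply hne
    rw [h1]
    norm_num
  have hne1 : ∀ c ∈ B', μ c ≠ 1 := fun c hc => (Finset.mem_filter.1 hc).2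
  have hhalf : ∀ c ∈ B', (1 / 2 : ℚ) ≤ 1 - 1 / (μ c : ℚ) := by
    intro c hc
    rcases Nat.eq_zero_or_pos (μ c) with h | h
    · rw [h]; norm_num
    · have h1 := hne1 c hc
      have h2 : (2 : ℚ) ≤ μ c := by exact_mod_cast (by omega : 2 ≤ μ c)
      have h3 : 1 / (μ c : ℚ) ≤ 1 / 2 := one_div_le_one_div_of_le (by norm_num) h2
      linarith
  have hcard : B'.card ≤ 3 := by
    have h1 := Finset.card_nsmul_le_sum B' _ _ hhalf
    rw [nsmul_eq_mul] at h1
    have h2 : (B'.card : ℚ) < 4 := by linarith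
    have h3 : B'.card < 4 := by exact_mod_cast h2
    omega
  -- at most two points
  have two : ∀ c₁ c₂ : Place k F0, c₁ ≠ c₂ → B' ⊆ {c₁, c₂} → μ c₂ ≠ 0 →
      ∃ g : F0 →ₐ[k] RatFunc k, ∀ q : Place k (RatFunc k), 0 ≤ q.ord RatFunc.X →
      ∀ (c : Place k F0) (e : ℕ), 0 < e → (∀ f, q.ord (g f) = e * c.ord f) →
        μ c ≠ 0 ∧ μ c ∣ e := by
    intro c₁ c₂ hne hsub h2
    obtain ⟨g, hg⟩ := line_two hx0 hne (m := μ c₂) (Nat.one_le_iff_ne_zero.2 h2)
    refine ⟨g, fun q hq c e he hce => ?_⟩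
    obtain ⟨h3, h4⟩ := hg q hq c e he hce
    by_cases hc2 : c = c₂
    · subst hc2
      exact ⟨h2, h4 rfl⟩
    · have h5 : c ∉ B' := by
        intro h
        rcases Finset.mem_insert.1 (hsub h) with h | h
        · exact h3 h
        · exact hc2 (Finset.mem_singleton.1 h)
      rw [hone c h5]
      exact ⟨one_ne_zero, one_dvd _⟩
  obtain ⟨P0, hP0, -⟩ := zero_unique hx0
  obtain ⟨P1, hP1, -⟩ := pole_unique hx0
  have hP01 : P0 ≠ P1 := by
    rintro rfl
    omega
  interval_cases hc : B'.card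
  · have h0 : B' = ∅ := Finset.card_eq_zero.1 hc
    refine two P0 P1 hP01 (by rw [h0]; exact Finset.empty_subset _) ?_
    rw [hone P1 (by rw [h0]; exact Finset.notMem_empty _)]
    exact one_ne_zero
  · obtain ⟨c, h1⟩ := Finset.card_eq_one.1 hc
    have hother : ∃ c', c ≠ c' := by
      by_cases h : c = P0
      · exact ⟨P1, h ▸ hP01⟩
      · exact ⟨P0, h⟩
    obtain ⟨c', hc'⟩ := hother
    refine two c c' hc' (by rw [h1]; simp) ?_
    rw [hone c' (by rw [h1]; simpa using hc'.symm)]
    exact one_ne_zero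
  · obtain ⟨c, c', hcc, h1⟩ := Finset.card_eq_two.1 hc
    by_cases h0 : μ c' = 0
    · have h2 : μ c ≠ 0 := by
        intro h2
        rw [h1, Finset.sum_pair hcc, h0, h2] at hsum'
        norm_num at hsum'
      exact two c' c hcc.symm (by rw [h1, Finset.pair_comm]) h2
    · exact two c c' hcc (by rw [h1]) h0
  · -- three points
    obtain ⟨a, b, c, hab, hac, hbc, h1⟩ := Finset.card_eq_three.1 hc
    have hmem : ∀ z, z = a ∨ z = b ∨ z = c → z ∈ B' := by
      intro z hz
      rw [h1]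
      simpa using hz
    have hsum3 : (1 - 1 / (μ a : ℚ)) + (1 - 1 / (μ b : ℚ)) + (1 - 1 / (μ c : ℚ)) < 2 := by
      rw [h1, Finset.sum_insert (by simp [hab, hac]), Finset.sum_pair hbc] at hsum'
      linarith
    have h2le : ∀ z, z = a ∨ z = b ∨ z = c → 2 ≤ μ z := by
      intro z hz
      have h3 := hne1 z (hmem z hz)
      have h4 : μ z ≠ 0 := by
        intro h4
        have ha := hhalf a (hmem a (Or.inl rfl))
        have hb := hhalf b (hmem b (Or.inr (Or.inl rfl)))
        have hc := hhalf c (hmem c (Or.inr (Or.inr rfl)))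
        rcases hz with rfl | rfl | rfl <;> rw [h4] at hsum3 <;> norm_num at hsum3 ha hb hc <;>
          linarith
      omega
    have fin : ∀ p1 p2 p3 : Place k F0, p1 ≠ p2 → p1 ≠ p3 → p2 ≠ p3 → B' = {p1, p2, p3} →
        2 ≤ μ p1 → μ p1 ≤ μ p2 → μ p2 ≤ μ p3 →
        (1 - 1 / (μ p1 : ℚ)) + (1 - 1 / (μ p2 : ℚ)) + (1 - 1 / (μ p3 : ℚ)) < 2 →
        ∃ g : F0 →ₐ[k] RatFunc k, ∀ q : Place k (RatFunc k), 0 ≤ q.ord RatFunc.X →
        ∀ (c : Place k F0) (e : ℕ), 0 < e → (∀ f, q.ord (g f) = e * c.ord f) →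
          μ c ≠ 0 ∧ μ c ∣ e := by
      intro p1 p2 p3 h12 h13 h23 hB m1 m2 m3 hs
      obtain ⟨g, hg⟩ := line_three hx0 h12 h13 h23 (by omega) (by omega)
        (triple_of_sum (k := k) m1 m2 m3 hs)
      refine ⟨g, fun q hq z e he hze => ?_⟩
      obtain ⟨g1, g2, g3⟩ := hg q hq z e he hze
      by_cases hz : z ∈ B'
      · rw [hB] at hz
        simp only [Finset.mem_insert, Finset.mem_singleton] at hz
        rcases hz with rfl | rfl | rfl
        · exact ⟨by omega, g1 rfl⟩
        · exact ⟨by omega, g2 rfl⟩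
        · exact ⟨by omega, g3 rfl⟩
      · rw [hone z hz]
        exact ⟨one_ne_zero, one_dvd _⟩
    have ha := h2le a (Or.inl rfl)
    have hb := h2le b (Or.inr (Or.inl rfl))
    have hc' := h2le c (Or.inr (Or.inr rfl))
    rcases le_total (μ a) (μ b) with hab' | hab'
    · rcases le_total (μ b) (μ c) with hbc' | hbc'
      · exact fin a b c hab hac hbc h1 ha hab' hbc' hsum3
      · rcases le_total (μ a) (μ c) with hac' | hac'
        · exact fin a c b hac hab hbc.symm (by rw [h1]; ext z; simp; tauto) ha hac' hbc'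
            (by linarith)
        · exact fin c a b hac.symm hbc.symm hab (by rw [h1]; ext z; simp; tauto) hc' hac' hab'
            (by linarith)
    · rcases le_total (μ a) (μ c) with hac' | hac'
      · exact fin b a c hab.symm hbc hac (by rw [h1]; ext z; simp; tauto) hb hab' hac'
          (by linarith)
      · rcases le_total (μ b) (μ c) with hbc' | hbc'
        · exact fin b c a hbc hab.symm hac.symm (by rw [h1]; ext z; simp; tauto) hb hbc' hac'
            (by linarith)
        · exact fin c b a hbc.symm hac.symm hab.symm (by rw [h1]; ext z; simp; tauto) hc' hbc'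
            hab' (by linarith)

end

end Pool.Agent.V8H92.TA
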