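import Pool.Agent.V8H92.TA.Hor
import Pool.Agent.W619.PL.LMain
import Pool.Agent.W619.PQ.Final

/-!
Logarithmic pluricanonical forms on varieties with a torus action.
-/

set_option autoImplicit false
set_option linter.unusedSectionVars false

open FF IntermediateField Pool.Agent.W603.LV Pool.Agent.W619.PQ Pool.Agent.W619.PL
  Pool.Agent.W602.GT

namespace Pool.Agent.V8H92.TA

section

variable {k E : Type} [Field k] [CharZero k] [IsAlgClosed k] [Field E] [Algebra k E] [IsFF k E]

/-- The form `(dx / x) ^ m` on the projective line. -/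
theorem log_form {x : E} (hx : k⟮x⟯ = ⊤) (m : ℕ) : ∃ (D : Derivation k E E) (c : E), D ≠ 0 ∧
    c ≠ 0 ∧ (∀ p : Place k E, 0 ≤ p.ord c + m * (1 - vo p D)) ∧
    ∀ p : Place k E, p.ord x = 0 → (m : ℤ) ≤ p.ord c + m * (1 - vo p D) := by
  have ht := transcendental_of_top hx
  have hx0 : x ≠ 0 := fun h => ht (by rw [h]; exact isAlgebraic_zero)
  obtain ⟨D, hD, hDx⟩ := exists_ddx ht
  obtain ⟨P, hP, hP2⟩ := pole_unique hx
  obtain ⟨Q, hQ, hQ2⟩ := zero_unique hx
  have hc : ∀ p : Place k E, p.ord ((x ^ m)⁻¹) = - (m * p.ord x) := by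
    intro p
    rw [p.ord_inv, p.ord_pow]
  refine ⟨D, (x ^ m)⁻¹, hD, inv_ne_zero (pow_ne_zero _ hx0), fun p => ?_, fun p hp => ?_⟩
  · rw [hc]
    rcases lt_trichotomy (p.ord x) 0 with h | h | h
    · have := hP2 p h
      subst this
      rw [hP, vo_infinite_place hD hDx p hP]
      omega
    · rw [h, (vo_finite_place hx hD hDx p h.ge).1]
      omega
    · have := hQ2 p h
      subst this
      rw [hQ, (vo_finite_place hx hD hDx p h.le).1]
      omega
  · rw [hc, hp, (vo_finite_place hx hD hDx p hp.ge).1]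
    omega

end

section

variable {k K : Type} [Field k] [CharZero k] [IsAlgClosed k] [Field K] [Algebra k K]
  {F : IntermediateField k K} {n : ℕ}
  {t : Fin n → K} {Bd : Place k K → Prop} {B : Finset (Place k F)}

/-- A form on the curve gives a logarithmic form on the variety. -/
theorem kodGe_of_form [hF : IsFF k F] (hT : TorusAction F t Bd B)
    (hhor : ∀ v : Place k K, ¬ Bd v → (∀ f : F, v.ord (f : K) = 0) → ∀ i, v.ord (t i) = 0)
    {m : ℕ} (hm : 0 < m) {D1 : Derivation k F F} (hD1 : D1 ≠ 0) {c1 : F} (hc1 : c1 ≠ 0)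
    (h1 : ∀ q : Place k F, 0 ≤ q.ord c1 + m * (1 - vo q D1))
    (h2 : ∀ (q : Place k F) (v : Place k K) (e : ℕ), ¬ Bd v → Over v q e →
      (m : ℤ) ≤ e * (q.ord c1 + m * (1 - vo q D1))) : KodGe k K (n + 1) Bd 0 := by
  classical
  let Ef : Fin (n + 1) → IntermediateField k K := Fin.cons F (fun j => k⟮t j⟯)
  have htt : ∀ j, Transcendental k (t j) := fun j => by
    have := hT.indep.transcendental j
    exact fun h => this (h.tower_top F)
  -- the curve generated by one coordinate
  have hgen : ∀ j, k⟮(AdjoinSimple.gen k (t j) : k⟮t j⟯)⟯ = ⊤ := by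
    intro j
    rw [eq_top_iff]
    intro z _
    have h3 : (z : K) ∈ k⟮t j⟯ := z.2
    obtain ⟨r, s, hrs⟩ := (mem_adjoin_simple_iff k (z : K)).1 h3
    rw [mem_adjoin_simple_iff]
    refine ⟨r, s, Subtype.ext ?_⟩
    rw [hrs]
    have h4 : ∀ p : Polynomial k, ((Polynomial.aeval (AdjoinSimple.gen k (t j)) p : k⟮t j⟯) : K) =
        Polynomial.aeval (t j) p := by
      intro p
      have := Polynomial.aeval_algebraMap_apply K (AdjoinSimple.gen k (t j)) p
      rw [AdjoinSimple.algebraMap_gen] at this
      exact this.symm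
    rw [← h4, ← h4]
    rfl
  have hIsFF1 : ∀ j, IsFF k k⟮t j⟯ := by
    intro j
    have h3 : Transcendental k (AdjoinSimple.gen k (t j)) := by
      intro h
      apply htt j
      have := h.algebraMap (A := K)
      rwa [AdjoinSimple.algebraMap_gen] at this
    refine IsFF.of_finite h3 ?_
    rw [hgen]
    refine ⟨⟨{1}, ?_⟩⟩
    rw [eq_top_iff]
    intro z _
    rw [Finset.coe_singleton, Submodule.mem_span_singleton]
    exact ⟨⟨z, trivial⟩, by rw [Algebra.smul_def, mul_one]; rfl⟩
  have hIsFF : ∀ i, IsFF k (Ef i) := by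
    intro i
    refine Fin.cases ?_ (fun j => ?_) i
    · exact hF
    · exact hIsFF1 j
  obtain ⟨z, hz⟩ := IsFF.exists_transcendental (k := k) (K := F)
  let val : Fin (n + 1) → K := Fin.cons (z : K) t
  have hdata : ∀ i, ∃ (D0 : Derivation k (Ef i) (Ef i)) (x c : Ef i), D0 ≠ 0 ∧ c ≠ 0 ∧
      Transcendental k x ∧ (x : K) = val i ∧
      (∀ p : Place k (Ef i), 0 ≤ p.ord c + m * (1 - vo p D0)) ∧
      (∀ (p : Place k (Ef i)) (v : Place k K) (e : ℕ), ¬ Bd v → Over v p e →
        (∀ j, v.ord (t j) = 0) → (m : ℤ) ≤ e * (p.ord c + m * (1 - vo p D0))) ∧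
      (i = 0 → ∀ (p : Place k (Ef i)) (v : Place k K) (e : ℕ), ¬ Bd v → Over v p e →
        (m : ℤ) ≤ e * (p.ord c + m * (1 - vo p D0))) := by
    intro i
    refine Fin.cases ?_ (fun j => ?_) i
    · exact ⟨D1, z, c1, hD1, hc1, hz, rfl, h1, fun p v e hv h _ => h2 p v e hv h,
        fun _ p v e hv h => h2 p v e hv h⟩
    · have := hIsFF1 j
      obtain ⟨D, c, a1, a2, a3, a4⟩ := log_form (hgen j) m
      have h3 : Transcendental k (AdjoinSimple.gen k (t j)) := transcendental_of_top (hgen j)
      refine ⟨D, AdjoinSimple.gen k (t j), c, a1, a2, h3, ?_, a3, fun p v e hv h hvt => ?_,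
        fun h => absurd h (Fin.succ_ne_zero j)⟩
      · exact AdjoinSimple.coe_gen k (t j)
      · have h4 : p.ord (AdjoinSimple.gen k (t j)) = 0 := by
          have h5 := h.2 (AdjoinSimple.gen k (t j))
          have h6 : v.ord (algebraMap k⟮t j⟯ K (AdjoinSimple.gen k (t j))) = 0 := by
            rw [AdjoinSimple.algebraMap_gen]
            exact hvt j
          have h7 : (e : ℤ) * p.ord (AdjoinSimple.gen k (t j)) = 0 := h5.symm.trans h6
          have h8 : (e : ℤ) ≠ 0 := by exact_mod_cast h.1.ne'
          exact (mul_eq_zero.1 h7).resolve_left h8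
        have h5 : (m : ℤ) ≤ p.ord c + m * (1 - vo p D) := a4 p h4
        have h6 : (1 : ℤ) ≤ e := by exact_mod_cast h.1
        have h7 : (0 : ℤ) ≤ m := by positivity
        nlinarith
  choose D0 x c hD0 hc hx hxval hA hB hC using hdata
  have hcomp : ∀ (i : Fin (n + 1)) (f : Ef i), algebraMap (Ef i) K f = (f : K) := fun i f => rfl
  have hbasis : IsTranscendenceBasis k fun i => algebraMap (Ef i) K (x i) := by
    have h3 : IsTranscendenceBasis k (fun _ : Unit => z) := IsFF.basis hz
    have h4 := h3.sumElim_comp (basis_of_top hT.indep hT.top)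
    let e : Fin (n + 1) ≃ Fin n ⊕ Unit :=
      { toFun := Fin.cons (Sum.inr ()) Sum.inl
        invFun := Sum.elim Fin.succ (fun _ => 0)
        left_inv := fun i => by
          refine Fin.cases ?_ (fun j => ?_) i
          · rfl
          · rfl
        right_inv := fun i => by
          rcases i with j | j
          · rfl
          · rfl }
    have h5 := h4.comp_equiv e
    convert h5 using 1
    funext i
    rw [hcomp, hxval]
    refine Fin.cases ?_ (fun j => ?_) i
    · rfl
    · rfl
  obtain ⟨D, hD⟩ := extForm_ne (K := K) m D0 x c hc (fun i => der_ne_zero (hD0 i) (hx i)) hbasis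
  refine ⟨m, hm, fun _ => extForm m D0 x c, fun _ => ⟨extForm_pluri m D0 x c, ?_, ?_⟩, D, hD, ?_⟩
  · intro P _ D' hD'
    refine extForm_logregular m D0 hD0 x c hx hc P (fun i => ?_) D' hD'
    by_cases htriv : ∀ f : Ef i, P.ord (algebraMap (Ef i) K f) = 0
    · exact Or.inl htriv
    · push Not at htriv
      obtain ⟨e, p, hp⟩ := exists_over (K := Ef i) P htriv
      exact Or.inr ⟨p, e, hp, hA i p⟩
  · intro v _ hv D' hD'
    by_cases hF0 : ∀ f : Ef 0, v.ord (algebraMap (Ef 0) K f) = 0
    · have hvt := hhor v hv hF0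
      refine extForm_regular m D0 hD0 x c hx hc v
        (fun i => if ∀ f : Ef i, v.ord (algebraMap (Ef i) K f) = 0 then 0 else 1)
        (fun i => ?_) ?_ D' hD'
      · by_cases htriv : ∀ f : Ef i, v.ord (algebraMap (Ef i) K f) = 0
        · exact Or.inl ⟨htriv, if_pos htriv⟩
        · right
          have htriv' := htriv
          push Not at htriv'
          obtain ⟨e, p, hp⟩ := exists_over (K := Ef i) v htriv'
          refine ⟨p, e, hp, ?_⟩
          rw [if_neg htriv, one_mul]
          have := hB i p v e hv hp hvt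
          exact_mod_cast this
      · by_cases hall : ∀ i, ∀ f : Ef i, v.ord (algebraMap (Ef i) K f) = 0
        · exact Or.inl hall
        · right
          rw [not_forall] at hall
          obtain ⟨i, hi⟩ := hall
          refine le_trans ?_ (Finset.single_le_sum (fun j _ => ?_) (Finset.mem_univ i))
          · rw [if_neg hi]
          · split_ifs <;> norm_num
    · refine extForm_regular m D0 hD0 x c hx hc v (fun i => if i = 0 then 1 else 0)
        (fun i => ?_) (Or.inr ?_) D' hD'
      · by_cases hi : i = 0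
        · subst hi
          right
          have hF0' := hF0
          push Not at hF0'
          obtain ⟨e, p, hp⟩ := exists_over (K := Ef 0) v hF0'
          refine ⟨p, e, hp, ?_⟩
          rw [if_pos rfl, one_mul]
          have := hC 0 rfl p v e hv hp
          exact_mod_cast this
        · rw [if_neg hi]
          by_cases htriv : ∀ f : Ef i, v.ord (algebraMap (Ef i) K f) = 0
          · exact Or.inl ⟨htriv, rfl⟩
          · right
            push Not at htriv
            obtain ⟨e, p, hp⟩ := exists_over (K := Ef i) v htriv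
            refine ⟨p, e, hp, ?_⟩
            rw [zero_mul]
            have h3 : (0 : ℤ) ≤ e * (p.ord (c i) + m * (1 - vo p (D0 i))) :=
              mul_nonneg (by positivity) (hA i p)
            exact_mod_cast h3
      · rw [Finset.sum_ite_eq' Finset.univ (0 : Fin (n + 1)) (fun _ => (1 : ℚ)),
          if_pos (Finset.mem_univ _)]
  · exact algebraicIndependent_empty_type_iff.2 (algebraMap k K).injective

end

end Pool.Agent.V8H92.TA
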