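import Pool.Agent.W619.PL.LDefs
import Pool.Agent.W602.GT.PsefDefs
import Pool.Agent.Helper386.D5V.Helper399_OverDefs

/-!
Varieties with an action of a torus whose general orbits have codimension one: definitions.
-/

set_option autoImplicit false

open FF

namespace Pool.Agent.V8H92.TA

section

variable {k K : Type} [Field k] [Field K] [Algebra k K]

/-- The discrete valuation `ν` of `K`, which may be trivial and need not be normalised, has a
centre on the variety whose function field is `K` and for which `Bd` is the set of places without
centre on the variety. -/
def HasCentre (Bd : Place k K → Prop) (ν : K → ℤ) : Prop :=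
  (∀ f, ν f = 0) ∨ ∃ (v : Place k K) (e : ℕ), ¬ Bd v ∧ 0 < e ∧ ∀ f, ν f = e * v.ord f

/-- The function field of the product of the variety with function field `K` and the torus of
dimension `n`. -/
abbrev Prd (K : Type) [Field K] (n : ℕ) : Type := FractionRing (MvPolynomial (Fin n) K)

/-- The coordinates of the torus. -/
noncomputable def co (K : Type) [Field K] {n : ℕ} (i : Fin n) : Prd K n :=
  algebraMap (MvPolynomial (Fin n) K) (Prd K n) (MvPolynomial.X i)

/-- `K` is the function field of a variety `X` with an action of the torus `T` of dimension `n`
whose general orbits have codimension one, `Bd` is the set of places without centre on `X`: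

* `F` is the function field of a curve (the field of the invariant functions), and `K = F(t)` for
  algebraically independent `t 1, …, t n`, on which the element `y` of the torus acts by
  `t i ↦ y i * t i`;
* `X` contains `T × (C - B)` for a finite set `B` of points of the curve `C` with function field
  `F`: the places at which the orders of the `t i` are zero and which do not lie over one of the
  points of `B` have a centre on `X`;
* the action is a morphism from `T × X` to `X`: if a place of the function field of `T × X` has
  a centre on `T` and a centre on `X`, then its image under the action has a centre on `X`. -/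
structure TorusAction (F : IntermediateField k K) {n : ℕ} (t : Fin n → K)
    (Bd : Place k K → Prop) (B : Finset (Place k F)) : Prop where
  indep : AlgebraicIndependent F t
  top : IntermediateField.adjoin F (Set.range t) = ⊤
  isOpen : ∀ v : Place k K, (∀ i, v.ord (t i) = 0) → (∀ c ∈ B, ∀ e, ¬ Over v c e) → ¬ Bd v
  act : ∀ a : K →ₐ[F] Prd K n, (∀ i, a (t i) = co K i * algebraMap K (Prd K n) (t i)) →
    ∀ V : Place k (Prd K n), (∀ i, V.ord (co K i) = 0) →
      HasCentre Bd (fun f => V.ord (algebraMap K (Prd K n) f)) →
        HasCentre Bd (fun f => V.ord (a f))

/-- The smallest multiplicity of the prime divisors (on modifications of `X`) over the point `c` of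
the curve; it is `0` if there are none. -/
noncomputable def mult {F : IntermediateField k K} (Bd : Place k K → Prop) (c : Place k F) : ℕ :=
  sInf {e : ℕ | ∃ v : Place k K, ¬ Bd v ∧ Over v c e}

end

end Pool.Agent.V8H92.TA
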