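import Pool.Agent.V8H92.TA.Mono
import Pool.Agent.V8H92.TA.Defs

/-!
Monomial valuations with a centre on a variety with a torus action.
-/

set_option autoImplicit false
set_option linter.unusedSectionVars false

open FF Pool.Agent.W603.LV MvPolynomial

namespace Pool.Agent.V8H92.TA

section

variable {k K : Type} [Field k] [Field K] [Algebra k K]

theorem place_eq_of_prop {v v' : Place k K} {e e' : ℕ} (he : 0 < e) (he' : 0 < e')
    (h : ∀ f, (e : ℤ) * v.ord f = e' * v'.ord f) : v = v' := by
  apply Place.eq_of_le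
  intro f _ hf
  have h1 := h f
  have h2 : (0 : ℤ) < e := by exact_mod_cast he
  have h3 : (0 : ℤ) < e' := by exact_mod_cast he'
  have h4 : 0 ≤ (e' : ℤ) * v'.ord f := by rw [← h1]; positivity
  exact nonneg_of_mul_nonneg_right h4 h3

variable {F : IntermediateField k K} {n : ℕ} {t : Fin n → K} {Bd : Place k K → Prop}
  {B : Finset (Place k F)}

/-- The algebraic independence of `y i * t i`. -/
theorem indep_act (ht : AlgebraicIndependent F t) :
    AlgebraicIndependent F (fun i => co K i * algebraMap K (Prd K n) (t i)) := by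
  classical
  rw [algebraicIndependent_iff]
  intro Q hQ
  have h1 : aeval (fun i => co K i * algebraMap K (Prd K n) (t i)) Q =
      algebraMap (MvPolynomial (Fin n) K) (Prd K n) (∑ a ∈ Q.support, monomial a (term t Q a)) := by
    rw [aeval_eq_sum_term, map_sum]
    refine Finset.sum_congr rfl fun a _ => ?_
    unfold term
    rw [monomial_eq, map_mul, Finsupp.prod_fintype _ _ (fun i => pow_zero _), map_prod]
    simp only [map_mul, map_pow, mul_pow, Finset.prod_mul_distrib, map_prod]
    have h2 : ∀ z : K, algebraMap (MvPolynomial (Fin n) K) (Prd K n) (C z) =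
        algebraMap K (Prd K n) z := fun z => by
      rw [IsScalarTower.algebraMap_apply K (MvPolynomial (Fin n) K) (Prd K n)]
      rfl
    simp only [h2]
    rw [IsScalarTower.algebraMap_apply F K (Prd K n)]
    unfold co
    ring
  rw [h1] at hQ
  have h2 := (map_eq_zero_iff _ (IsFractionRing.injective (MvPolynomial (Fin n) K) (Prd K n))).1 hQ
  by_contra hne
  obtain ⟨a, ha⟩ := support_nonempty.2 hne
  have h3 := congrArg (coeff a) h2
  rw [coeff_sum] at h3
  simp only [coeff_monomial] at h3
  rw [Finset.sum_ite_eq', if_pos ha, coeff_zero] at h3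
  exact term_ne_zero ht ha h3

/-- The limit of a place with a centre on `X` under the torus action. -/
theorem mono_centre (hT : TorusAction F t Bd B) {v : Place k K} (hv : ¬ Bd v)
    (hne : (∃ f : F, v.ord (f : K) ≠ 0) ∨ ∃ i, v.ord (t i) ≠ 0) :
    ∃ (V : Place k (Prd K n)) (a : K →+* Prd K n) (v₀ : Place k K) (e₀ : ℕ),
      IsMono F t V a ∧ (∀ f : F, V.ord (a (f : K)) = v.ord (f : K)) ∧
      (∀ i, V.ord (a (t i)) = v.ord (t i)) ∧ ¬ Bd v₀ ∧ 0 < e₀ ∧
      ∀ f, V.ord (a f) = e₀ * v₀.ord f := by
  classical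
  obtain ⟨V, hV⟩ := exists_gauss (Fin n) v
  obtain ⟨a, ha⟩ := exists_lift hT.indep hT.top (indep_act hT.indep)
  have hm : ∀ (b : Fin n →₀ ℕ) (z : K), z ≠ 0 →
      V.ord (algebraMap (MvPolynomial (Fin n) K) (Prd K n) (monomial b z)) = v.ord z := by
    intro b z hz
    apply hV
    refine ⟨fun c => ?_, b, ?_, ?_⟩
    · rw [coeff_monomial]
      split_ifs
      · exact Or.inr le_rfl
      · exact Ge.zero
    · rwa [coeff_monomial, if_pos rfl]
    · rw [coeff_monomial, if_pos rfl]
  have hco : ∀ i, V.ord (co K i : Prd K n) = 0 := by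
    intro i
    have := hm (Finsupp.single i 1) 1 one_ne_zero
    rw [v.ord_one] at this
    exact this
  have hK : ∀ z : K, V.ord (algebraMap K (Prd K n) z) = v.ord z := by
    intro z
    by_cases hz : z = 0
    · rw [hz, map_zero, V.ord_zero, v.ord_zero]
    · have := hm 0 z hz
      rw [IsScalarTower.algebraMap_apply K (MvPolynomial (Fin n) K) (Prd K n)]
      exact this
  have hcK : ∀ i, (co K i : Prd K n) ≠ 0 := by
    intro i h
    have h1 : (X i : MvPolynomial (Fin n) K) = 0 :=
      (map_eq_zero_iff _ (IsFractionRing.injective (MvPolynomial (Fin n) K) (Prd K n))).1 h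
    exact X_ne_zero i h1
  have haF : ∀ f : F, V.ord (a (f : K)) = v.ord (f : K) := by
    intro f
    have h1 : a (f : K) = algebraMap F (Prd K n) f := a.commutes f
    rw [h1, IsScalarTower.algebraMap_apply F K (Prd K n), hK]
    rfl
  have hat : ∀ i, V.ord (a (t i)) = v.ord (t i) := by
    intro i
    rw [ha, V.ord_mul (hcK i) ((map_ne_zero _).2 (hT.indep.ne_zero i)), hco, hK, zero_add]
  have hterm : ∀ (Q : MvPolynomial (Fin n) F) (b : Fin n →₀ ℕ),
      a (term t Q b) = algebraMap (MvPolynomial (Fin n) K) (Prd K n) (monomial b (term t Q b)) := by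
    intro Q b
    unfold term
    rw [map_mul, map_prod, monomial_eq, map_mul, Finsupp.prod_fintype _ _ (fun i => pow_zero _)]
    simp only [map_pow, ha, mul_pow, Finset.prod_mul_distrib, map_mul, map_prod]
    have h2 : ∀ z : K, algebraMap (MvPolynomial (Fin n) K) (Prd K n) (C z) =
        algebraMap K (Prd K n) z := fun z => by
      rw [IsScalarTower.algebraMap_apply K (MvPolynomial (Fin n) K) (Prd K n)]
      rfl
    simp only [h2]
    have h3 : a (algebraMap F K (Q.coeff b)) = algebraMap K (Prd K n) (algebraMap F K (Q.coeff b)) := by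
      rw [← IsScalarTower.algebraMap_apply F K (Prd K n)]
      exact a.commutes _
    rw [h3]
    unfold co
    ring
  have hcen := hT.act a ha V hco (Or.inr ⟨v, 1, hv, one_pos, fun f => by
    change V.ord (algebraMap K (Prd K n) f) = _
    rw [hK, Nat.cast_one, one_mul]⟩)
  have hmono : IsMono F t V (a : K →+* Prd K n) := by
    refine isMono_of hT.indep fun Q r hQ hr => ?_
    have h1 : (a : K →+* Prd K n) (aeval t Q) =
        algebraMap (MvPolynomial (Fin n) K) (Prd K n)
          (∑ b ∈ Q.support, monomial b (term t Q b)) := by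
      rw [aeval_eq_sum_term, map_sum, map_sum]
      exact Finset.sum_congr rfl fun b _ => hterm Q b
    rw [h1]
    have hr' : ∀ b ∈ Q.support, v.ord (term t Q b) = r := by
      intro b hb
      have h2 := hr b hb
      change V.ord (a (term t Q b)) = r at h2
      rwa [hterm, hm _ _ (term_ne_zero hT.indep hb)] at h2
    apply hV
    have hc : ∀ c, coeff c (∑ b ∈ Q.support, monomial b (term t Q b)) =
        if c ∈ Q.support then term t Q c else 0 := by
      intro c
      rw [coeff_sum]
      simp only [coeff_monomial]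
      rw [Finset.sum_ite_eq']
    refine ⟨fun c => ?_, ?_⟩
    · rw [hc]
      split_ifs with h
      · exact Or.inr (hr' c h).ge
      · exact Ge.zero
    · obtain ⟨b, hb⟩ := support_nonempty.2 hQ
      refine ⟨b, ?_, ?_⟩
      · rw [hc, if_pos hb]
        exact term_ne_zero hT.indep hb
      · rw [hc, if_pos hb]
        exact hr' b hb
  rcases hcen with h | ⟨v₀, e₀, h1, h2, h3⟩
  · exfalso
    have h : ∀ f, V.ord (a f) = 0 := h
    rcases hne with ⟨f, hf⟩ | ⟨i, hi⟩
    · exact hf (by rw [← haF, h])
    · exact hi (by rw [← hat, h])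
  · exact ⟨V, a, v₀, e₀, hmono, haF, hat, h1, h2, h3⟩

/-- A monomial valuation which is proportional, on `F` and on the coordinates, to a place with a
centre on `X` has a centre on `X`. -/
theorem not_bd_of_mono (hT : TorusAction F t Bd B) {v : Place k K} (hv : ¬ Bd v)
    (hne : (∃ f : F, v.ord (f : K) ≠ 0) ∨ ∃ i, v.ord (t i) ≠ 0)
    {k' L : Type} [Field k'] [Field L] [Algebra k' L] {W : Place k' L} {φ : K →+* L}
    (hW : IsMono F t W φ) {c d : ℕ} (hc : 0 < c) (hd : 0 < d)
    (hF : ∀ f : F, d * W.ord (φ (f : K)) = c * v.ord (f : K))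
    (ht : ∀ i, d * W.ord (φ (t i)) = c * v.ord (t i)) {v' : Place k K} {e : ℕ} (he : 0 < e)
    (hv' : ∀ f, W.ord (φ f) = e * v'.ord f) : ¬ Bd v' := by
  obtain ⟨V, a, v₀, e₀, h1, h2, h3, h4, h5, h6⟩ := mono_centre hT hv hne
  have hcz : (0 : ℤ) < c := by exact_mod_cast hc
  have hdz : (0 : ℤ) < d := by exact_mod_cast hd
  have h7 := IsMono.eq_of hT.indep hT.top hW h1 (c := d) (c' := c) hdz hcz
    (fun f => by
      change d * W.ord (φ (f : K)) = c * V.ord (a (f : K))
      rw [hF, h2])
    (fun i => by rw [ht, h3])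
  have h8 : v' = v₀ := by
    refine place_eq_of_prop (Nat.mul_pos hd he) (Nat.mul_pos hc h5) fun f => ?_
    have h9 := h7 f
    rw [hv', h6] at h9
    push_cast
    linarith
  rw [h8]
  exact h4

theorem not_over_of_trivial {v : Place k K} (h : ∀ f : F, v.ord (f : K) = 0) (c : Place k F)
    (e : ℕ) : ¬ Over v c e := by
  intro hv
  obtain ⟨s, -, hs⟩ := c.surj
  have h1 := hv.2 s
  change v.ord (s : K) = _ at h1
  rw [h, hs, mul_one] at h1
  have := hv.1
  omega

end

end Pool.Agent.V8H92.TA
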