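import Pool.Agent.W603.LV.Can

/-!
The Gauss extension of a place of a field `K` to the field of fractions of the ring of polynomials
over `K`.
-/

set_option autoImplicit false
set_option linter.unusedSectionVars false

open FF Pool.Agent.W603.LV MvPolynomial

namespace Pool.Agent.V8H92.TA

section Frac

variable {k R L : Type} [Field k] [CommRing R] [IsDomain R] [Field L] [Algebra R L]
  [IsFractionRing R L] [Algebra k L]

/-- A place of the field of fractions from an order function on the domain. -/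
theorem exists_place_frac (mo : R → ℤ) (h0 : mo 0 = 0)
    (hmul : ∀ a b, a ≠ 0 → b ≠ 0 → mo (a * b) = mo a + mo b)
    (hadd : ∀ a b, a ≠ 0 → b ≠ 0 → a + b ≠ 0 → min (mo a) (mo b) ≤ mo (a + b))
    (hconst : ∀ c : k, c ≠ 0 → ∃ r : R, r ≠ 0 ∧ algebraMap k L c = algebraMap R L r ∧ mo r = 0)
    (hsurj : ∃ r : R, r ≠ 0 ∧ mo r = 1) :
    ∃ V : Place k L, ∀ r : R, V.ord (algebraMap R L r) = mo r := by
  classical
  have hinj : Function.Injective (algebraMap R L) := IsFractionRing.injective R L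
  have hrep : ∀ x : L, ∃ ab : R × R, ab.2 ≠ 0 ∧ x * algebraMap R L ab.2 = algebraMap R L ab.1 := by
    intro x
    obtain ⟨a, b, hb, rfl⟩ := IsFractionRing.div_surjective (A := R) x
    have hb0 : b ≠ 0 := nonZeroDivisors.ne_zero hb
    refine ⟨(a, b), hb0, ?_⟩
    have : algebraMap R L b ≠ 0 := (map_ne_zero_iff _ hinj).2 hb0
    field_simp
  choose rep hrep1 hrep2 using hrep
  let o : L → ℤ := fun x => if x = 0 then 0 else mo (rep x).1 - mo (rep x).2
  have key : ∀ (x : L) (a b : R), a ≠ 0 → b ≠ 0 → x * algebraMap R L b = algebraMap R L a →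
      x ≠ 0 ∧ o x = mo a - mo b := by
    intro x a b ha hb hx
    have hx0 : x ≠ 0 := by
      rintro rfl
      rw [zero_mul] at hx
      exact ha ((map_eq_zero_iff _ hinj).1 hx.symm)
    refine ⟨hx0, ?_⟩
    have h1 := hrep2 x
    have h2 : (rep x).1 ≠ 0 := by
      intro h
      rw [h, map_zero] at h1
      rcases mul_eq_zero.1 h1 with h | h
      · exact hx0 h
      · exact hrep1 x ((map_eq_zero_iff _ hinj).1 h)
    have h3 : (rep x).1 * b = a * (rep x).2 := by
      apply hinj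
      rw [map_mul, map_mul, ← h1, ← hx]
      ring
    have h4 := congrArg mo h3
    rw [hmul _ _ h2 hb, hmul _ _ ha (hrep1 x)] at h4
    simp only [o, if_neg hx0]
    omega
  have hkey : ∀ x : L, x ≠ 0 → ∃ a b : R, a ≠ 0 ∧ b ≠ 0 ∧ x * algebraMap R L b = algebraMap R L a := by
    intro x hx
    refine ⟨(rep x).1, (rep x).2, ?_, hrep1 x, hrep2 x⟩
    intro h
    have h1 := hrep2 x
    rw [h, map_zero] at h1
    rcases mul_eq_zero.1 h1 with h | h
    · exact hx h
    · exact hrep1 x ((map_eq_zero_iff _ hinj).1 h)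
  have hone : mo 1 = 0 := by
    have := hmul 1 1 one_ne_zero one_ne_zero
    rw [mul_one] at this
    omega
  have hr : ∀ r : R, o (algebraMap R L r) = mo r := by
    intro r
    by_cases h : r = 0
    · rw [h, map_zero, h0]
      simp only [o, if_pos]
    · have := (key (algebraMap R L r) r 1 h one_ne_zero (by rw [map_one, mul_one])).2
      rw [this, hone, sub_zero]
  refine ⟨⟨o, by simp only [o, if_pos], ?_, ?_, ?_, ?_⟩, hr⟩
  · intro f g hf hg
    obtain ⟨a, b, ha, hb, hab⟩ := hkey f hf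
    obtain ⟨c, d, hc, hd, hcd⟩ := hkey g hg
    rw [(key f a b ha hb hab).2, (key g c d hc hd hcd).2,
      (key (f * g) (a * c) (b * d) (mul_ne_zero ha hc) (mul_ne_zero hb hd) (by
        rw [map_mul, map_mul, ← hab, ← hcd]; ring)).2, hmul _ _ ha hc, hmul _ _ hb hd]
    ring
  · intro f g hf hg hfg
    obtain ⟨a, b, ha, hb, hab⟩ := hkey f hf
    obtain ⟨c, d, hc, hd, hcd⟩ := hkey g hg
    have h1 : (f + g) * algebraMap R L (b * d) = algebraMap R L (a * d + c * b) := by
      rw [map_mul, map_add, map_mul, map_mul, ← hab, ← hcd]; ring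
    have h2 : a * d + c * b ≠ 0 := by
      intro h
      rw [h, map_zero] at h1
      rcases mul_eq_zero.1 h1 with h | h
      · exact hfg h
      · exact mul_ne_zero hb hd ((map_eq_zero_iff _ hinj).1 h)
    rw [(key f a b ha hb hab).2, (key g c d hc hd hcd).2,
      (key (f + g) _ _ h2 (mul_ne_zero hb hd) h1).2, hmul _ _ hb hd]
    have h3 := hadd _ _ (mul_ne_zero ha hd) (mul_ne_zero hc hb) h2
    rw [hmul _ _ ha hd, hmul _ _ hc hb] at h3
    rcases min_le_iff.1 h3 with h | h
    · exact (min_le_left _ _).trans (by omega)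
    · exact (min_le_right _ _).trans (by omega)
  · intro c hc
    obtain ⟨r, -, h1, h2⟩ := hconst c hc
    rw [h1, hr, h2]
  · obtain ⟨r, h1, h2⟩ := hsurj
    exact ⟨algebraMap R L r, (map_ne_zero_iff _ hinj).2 h1, by rw [hr, h2]⟩

end Frac

section Gauss

variable {k K : Type} [Field k] [Field K] [Algebra k K] {σ : Type} (v : Place k K)

/-- `N` is the minimum of the orders of the coefficients of `P`. -/
def IsOrd (P : MvPolynomial σ K) (N : ℤ) : Prop :=
  (∀ a, Ge v N (P.coeff a)) ∧ ∃ a, P.coeff a ≠ 0 ∧ v.ord (P.coeff a) = N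

variable {v}

theorem exists_isOrd {P : MvPolynomial σ K} (hP : P ≠ 0) : ∃ N, IsOrd v P N := by
  obtain ⟨a, ha, hmin⟩ := Finset.exists_min_image P.support (fun a => v.ord (P.coeff a))
    (MvPolynomial.support_nonempty.2 hP)
  refine ⟨v.ord (P.coeff a), fun b => ?_, a, mem_support_iff.1 ha, rfl⟩
  by_cases hb : P.coeff b = 0
  · exact Or.inl hb
  · exact Or.inr (hmin b (mem_support_iff.2 hb))

theorem IsOrd.le {P : MvPolynomial σ K} {N M : ℤ} (h : ∀ a, Ge v N (P.coeff a))
    (h' : IsOrd v P M) : N ≤ M := by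
  obtain ⟨a, ha0, ha⟩ := h'.2
  rw [← ha]
  exact (h a).resolve_left ha0

theorem IsOrd.unique {P : MvPolynomial σ K} {N M : ℤ} (h : IsOrd v P N) (h' : IsOrd v P M) :
    N = M := le_antisymm (IsOrd.le h.1 h') (IsOrd.le h'.1 h)

theorem IsOrd.ne_zero {P : MvPolynomial σ K} {N : ℤ} (h : IsOrd v P N) : P ≠ 0 := by
  rintro rfl
  obtain ⟨a, ha, -⟩ := h.2
  exact ha (coeff_zero a)

theorem IsOrd.scale {P : MvPolynomial σ K} {N : ℤ} (h : IsOrd v P N) {c : K} (hc : c ≠ 0) :
    IsOrd v (C c * P) (v.ord c + N) := by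
  refine ⟨fun a => ?_, ?_⟩
  · rw [coeff_C_mul]
    exact Ge.mul (Or.inr le_rfl) (h.1 a)
  · obtain ⟨a, ha0, ha⟩ := h.2
    refine ⟨a, ?_, ?_⟩
    · rw [coeff_C_mul]; exact mul_ne_zero hc ha0
    · rw [coeff_C_mul, v.ord_mul hc ha0, ha]

theorem IsOrd.lift {P : MvPolynomial σ K} (h : IsOrd v P 0) :
    ∃ P' : MvPolynomial σ v.O, map v.O.subtype P' = P ∧ map v.resHom P' ≠ 0 := by
  classical
  let P' : MvPolynomial σ v.O := ∑ a ∈ P.support, monomial a ⟨P.coeff a, h.1 a⟩
  have h1 : map v.O.subtype P' = P := by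
    simp only [P', map_sum, map_monomial]
    conv_rhs => rw [P.as_sum]
    rfl
  refine ⟨P', h1, fun h2 => ?_⟩
  obtain ⟨a, ha0, ha⟩ := h.2
  have h3 : v.resHom (P'.coeff a) = 0 := by
    rw [← coeff_map, h2, coeff_zero]
  have h4 : ((P'.coeff a : v.O) : K) = P.coeff a := by
    have := congrArg (coeff a) h1
    rw [coeff_map] at this
    exact this
  have h5 : IsUnit (P'.coeff a) := by
    have := (v.isUnit_O_iff (f := ((P'.coeff a : v.O) : K)) (P'.coeff a).2).2 ⟨by rwa [h4], by rw [h4, ha]⟩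
    exact this
  have h6 : IsUnit (v.resHom (P'.coeff a)) := h5.map _
  rw [h3] at h6
  exact not_isUnit_zero h6

theorem IsOrd.mul {P Q : MvPolynomial σ K} {N M : ℤ} (hP : IsOrd v P N) (hQ : IsOrd v Q M) :
    IsOrd v (P * Q) (N + M) := by
  classical
  refine ⟨fun a => ?_, ?_⟩
  · rw [coeff_mul]
    exact Ge.sum _ _ fun x _ => (hP.1 _).mul (hQ.1 _)
  have hu := ord_unif v
  have hu0 : unif v ≠ 0 := by
    intro h
    rw [h, v.ord_zero] at hu
    omega
  have h1 : IsOrd v (C (unif v ^ (-N)) * P) 0 := by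
    have := hP.scale (zpow_ne_zero (-N) hu0)
    rwa [v.ord_zpow, hu, mul_one, neg_add_cancel] at this
  have h2 : IsOrd v (C (unif v ^ (-M)) * Q) 0 := by
    have := hQ.scale (zpow_ne_zero (-M) hu0)
    rwa [v.ord_zpow, hu, mul_one, neg_add_cancel] at this
  obtain ⟨P', hP1, hP2⟩ := h1.lift
  obtain ⟨Q', hQ1, hQ2⟩ := h2.lift
  have h3 : map v.resHom (P' * Q') ≠ 0 := by
    rw [map_mul]
    exact mul_ne_zero hP2 hQ2
  obtain ⟨a, ha⟩ := MvPolynomial.ne_zero_iff.1 h3
  rw [coeff_map] at ha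
  have h4 : IsUnit ((P' * Q').coeff a) := by
    by_contra hcon
    apply ha
    change IsLocalRing.residue v.O _ = 0
    rw [IsLocalRing.residue_eq_zero_iff]
    exact hcon
  have h5 := (v.isUnit_O_iff (f := (((P' * Q').coeff a : v.O) : K)) ((P' * Q').coeff a).2).1 h4
  have h6 : (((P' * Q').coeff a : v.O) : K) = unif v ^ (-N - M) * (P * Q).coeff a := by
    have h7 : map v.O.subtype (P' * Q') = C (unif v ^ (-N - M)) * (P * Q) := by
      rw [map_mul, hP1, hQ1, sub_eq_add_neg, zpow_add₀ hu0, C_mul]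
      ring
    have h8 := congrArg (coeff a) h7
    rw [coeff_map, coeff_C_mul] at h8
    exact h8
  rw [h6] at h5
  have h9 : (P * Q).coeff a ≠ 0 := right_ne_zero_of_mul h5.1
  refine ⟨a, h9, ?_⟩
  have h10 := h5.2
  rw [v.ord_mul (zpow_ne_zero _ hu0) h9, v.ord_zpow, hu] at h10
  linarith

theorem IsOrd.add_le {P Q : MvPolynomial σ K} {N M R : ℤ} (hP : IsOrd v P N) (hQ : IsOrd v Q M)
    (hR : IsOrd v (P + Q) R) : min N M ≤ R := by
  refine IsOrd.le (fun a => ?_) hR
  rw [coeff_add]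
  exact ((hP.1 a).mono (min_le_left _ _)).add ((hQ.1 a).mono (min_le_right _ _))

theorem isOrd_C {c : K} (hc : c ≠ 0) : IsOrd v (C c : MvPolynomial σ K) (v.ord c) := by
  classical
  refine ⟨fun a => ?_, 0, ?_, ?_⟩
  · rw [coeff_C]
    split_ifs
    · exact Or.inr le_rfl
    · exact Ge.zero
  · rwa [coeff_C, if_pos rfl]
  · rw [coeff_C, if_pos rfl]

variable (v σ) in
/-- **The Gauss extension.** -/
theorem exists_gauss : ∃ V : Place k (FractionRing (MvPolynomial σ K)),
    ∀ (P : MvPolynomial σ K) (N : ℤ), IsOrd v P N →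
      V.ord (algebraMap (MvPolynomial σ K) (FractionRing (MvPolynomial σ K)) P) = N := by
  classical
  have hex : ∀ P : MvPolynomial σ K, ∃ N : ℤ, (P = 0 → N = 0) ∧ (P ≠ 0 → IsOrd v P N) := by
    intro P
    by_cases hP : P = 0
    · exact ⟨0, fun _ => rfl, fun h => absurd hP h⟩
    · obtain ⟨N, hN⟩ := exists_isOrd (v := v) hP
      exact ⟨N, fun h => absurd h hP, fun _ => hN⟩
  choose mo hmo0 hmo using hex
  have hC : ∀ c : K, c ≠ 0 → (C c : MvPolynomial σ K) ≠ 0 ∧ mo (C c) = v.ord c := by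
    intro c hc
    have h1 : (C c : MvPolynomial σ K) ≠ 0 := by simpa using hc
    exact ⟨h1, (hmo _ h1).unique (isOrd_C hc)⟩
  obtain ⟨V, hV⟩ := exists_place_frac (k := k) (R := MvPolynomial σ K)
    (L := FractionRing (MvPolynomial σ K)) mo (hmo0 0 rfl)
    (fun a b ha hb => (hmo _ (mul_ne_zero ha hb)).unique ((hmo a ha).mul (hmo b hb)))
    (fun a b ha hb hab => (hmo a ha).add_le (hmo b hb) (hmo _ hab))
    (fun c hc => by
      have hc' : algebraMap k K c ≠ 0 := by simpa using hc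
      refine ⟨C (algebraMap k K c), (hC _ hc').1, ?_, ?_⟩
      · rw [IsScalarTower.algebraMap_apply k (MvPolynomial σ K)
          (FractionRing (MvPolynomial σ K))]
        rfl
      · rw [(hC _ hc').2, v.ord_const hc])
    (by
      obtain ⟨s, hs0, hs⟩ := v.surj
      exact ⟨C s, (hC s hs0).1, by rw [(hC s hs0).2, hs]⟩)
  refine ⟨V, fun P N hN => ?_⟩
  rw [hV]
  exact (hmo P hN.ne_zero).unique hN

end Gauss

end Pool.Agent.V8H92.TA
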