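import Pool.Agent.V8H92.TA.Ver

/-!
Lifting affine lines from the quotient curve: the main lemma.
-/

set_option autoImplicit false
set_option linter.unusedSectionVars false

open FF IntermediateField Pool.Agent.W603.LV Pool.Agent.W619.PQ

namespace Pool.Agent.V8H92.TA

section

variable {k K : Type} [Field k] [Field K] [Algebra k K] {F : IntermediateField k K} {n : ℕ}
  {t : Fin n → K} {Bd : Place k K → Prop} {B : Finset (Place k F)}

/-- **Lifting affine lines.** Let the affine line be mapped to the curve `C` such that its points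
over `c` have multiplicities divisible by the multiplicity of some prime divisor over `c`. -/
theorem a1_of_base [CharZero k] [IsAlgClosed k] [hF : IsFF k F] (hT : TorusAction F t Bd B)
    (g : F →ₐ[k] RatFunc k)
    (hg : ∀ q : Place k (RatFunc k), 0 ≤ q.ord RatFunc.X → ∀ (c : Place k F) (e : ℕ), 0 < e →
      (∀ f, q.ord (g f) = e * c.ord f) → ∃ (v : Place k K) (m : ℕ), ¬ Bd v ∧ Over v c m ∧ m ∣ e) :
    Pool.Agent.W619.PL.IsA1Uniruled k K (n + 1) Bd := by
  classical
  have hFF : IsFF k (RatFunc k) := isFF_ratFunc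
  -- the prescribed orders
  have hρ : ∀ q : Place k (RatFunc k), ∃ ρ : Fin n → ℤ,
      (0 ≤ q.ord RatFunc.X → ∀ c ∈ B, ∀ e : ℕ, 0 < e → (∀ f, q.ord (g f) = e * c.ord f) →
        ∃ (v : Place k K) (m κ : ℕ), ¬ Bd v ∧ Over v c m ∧ 0 < κ ∧ e = κ * m ∧
          ∀ i, ρ i = κ * v.ord (t i)) ∧
      ((¬ ∃ c ∈ B, ∃ e : ℕ, 0 < e ∧ ∀ f, q.ord (g f) = e * c.ord f) → ρ = 0) := by
    intro q
    by_cases h : ∃ c ∈ B, ∃ e : ℕ, 0 < e ∧ ∀ f, q.ord (g f) = e * c.ord f
    · obtain ⟨c, hc, e, he, hce⟩ := h
      by_cases hq : 0 ≤ q.ord RatFunc.X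
      · obtain ⟨v, m, h1, h2, κ, h3⟩ := hg q hq c e he hce
        have hκ : 0 < κ := by
          rcases Nat.eq_zero_or_pos κ with h | h
          · rw [h, mul_zero] at h3
            omega
          · exact h
        refine ⟨fun i => κ * v.ord (t i), fun _ c' _ e' he' hce' => ?_,
          fun h => absurd ⟨c, hc, e, he, hce⟩ h⟩
        have hcc : c' = c := place_eq_of_prop he' he fun f => by rw [← hce', ← hce]
        subst hcc
        have hee : e' = e := by
          obtain ⟨s, -, hs⟩ := c'.surj
          have h4 := hce' s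
          rw [hce s, hs, mul_one, mul_one] at h4
          exact_mod_cast h4.symm
        exact ⟨v, m, κ, h1, h2, hκ, by rw [hee, h3, mul_comm], fun i => rfl⟩
      · exact ⟨0, fun h => absurd h hq, fun _ => rfl⟩
    · refine ⟨0, fun _ c hc e he hce => absurd ⟨c, hc, e, he, hce⟩ h, fun _ => rfl⟩
  choose ρ hρ1 hρ2 using hρ
  have hfin : {q : Place k (RatFunc k) | ∃ c ∈ B, ∃ e : ℕ, 0 < e ∧
      ∀ f, q.ord (g f) = e * c.ord f}.Finite := by
    have h1 : (⋃ c ∈ B, {q : Place k (RatFunc k) | q.ord (g (unif c)) ≠ 0}).Finite :=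
      B.finite_toSet.biUnion fun c _ => finite_support (k := k) _
    refine h1.subset ?_
    rintro q ⟨c, hc, e, he, hce⟩
    simp only [Set.mem_iUnion]
    refine ⟨c, hc, ?_⟩
    change q.ord (g (unif c)) ≠ 0
    rw [hce, ord_unif, mul_one]
    exact_mod_cast he.ne'
  have hh : ∀ i : Fin n, ∃ h : RatFunc k, h ≠ 0 ∧
      ∀ q : Place k (RatFunc k), 0 ≤ q.ord RatFunc.X → q.ord h = ρ q i := by
    intro i
    refine exists_orders (fun q => ρ q i) (hfin.subset ?_)
    intro q hq
    by_contra hcon
    exact hq (by rw [hρ2 q hcon]; rfl)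
  choose h hh0 hh using hh
  -- the parameters
  let M : Type := FractionRing (MvPolynomial (Fin n) k)
  let y : Fin n → M := fun i => algebraMap (MvPolynomial (Fin n) k) M (MvPolynomial.X i)
  have hy : AlgebraicIndependent k y := by
    have h1 : AlgebraicIndependent k (MvPolynomial.X : Fin n → MvPolynomial (Fin n) k) :=
      MvPolynomial.algebraicIndependent_X _ _
    exact h1.map' (f := IsScalarTower.toAlgHom k (MvPolynomial (Fin n) k) M)
      (IsFractionRing.injective (MvPolynomial (Fin n) k) M)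
  have hytop : adjoin k (Set.range y) = ⊤ := by
    rw [eq_top_iff]
    intro z _
    rw [IntermediateField.mem_adjoin_range_iff]
    obtain ⟨a, b, -, rfl⟩ := IsFractionRing.div_surjective (A := MvPolynomial (Fin n) k) z
    have h1 : ∀ p : MvPolynomial (Fin n) k, MvPolynomial.aeval y p =
        algebraMap (MvPolynomial (Fin n) k) M p := by
      intro p
      have h2 : MvPolynomial.aeval y = IsScalarTower.toAlgHom k (MvPolynomial (Fin n) k) M := by
        ext i
        simp [y]
      rw [h2]
      rfl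
    exact ⟨a, b, by rw [h1, h1]⟩
  have htrM : Algebra.trdeg k M + 1 = (n + 1 : ℕ) := by
    rw [← (basis_of_top hy hytop).cardinalMk_eq_trdeg]
    simp
  have hessM : Algebra.EssFiniteType k M := by
    have h1 : Algebra.EssFiniteType (MvPolynomial (Fin n) k) M :=
      Algebra.EssFiniteType.of_isLocalization _ (nonZeroDivisors (MvPolynomial (Fin n) k))
    exact Algebra.EssFiniteType.comp k (MvPolynomial (Fin n) k) M
  have hy0 : ∀ i, y i ≠ 0 := fun i => hy.ne_zero i
  -- the homomorphism
  let L : Type := RatFunc M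
  let _ : Algebra F L := ((inc k M).comp g).toRingHom.toAlgebra
  have hFL : ∀ f : F, algebraMap F L f = inc k M (g f) := fun f => rfl
  let s : Fin n → L := fun i => inc k M (h i) * algebraMap M L (y i)
  let u : MvPolynomial (Fin n) F → (Fin n →₀ ℕ) → RatFunc k := fun Q a =>
    g (Q.coeff a) * ∏ i, h i ^ a i
  have hu0 : ∀ (Q : MvPolynomial (Fin n) F), ∀ a ∈ Q.support, u Q a ≠ 0 := by
    intro Q a ha
    refine mul_ne_zero ((map_ne_zero _).2 (MvPolynomial.mem_support_iff.1 ha)) ?_
    exact Finset.prod_ne_zero_iff.2 fun i _ => pow_ne_zero _ (hh0 i)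
  have hsterm : ∀ (Q : MvPolynomial (Fin n) F) (a : Fin n →₀ ℕ),
      term s Q a = inc k M (u Q a) * algebraMap M L (∏ i, y i ^ a i) := by
    intro Q a
    unfold term
    rw [hFL]
    simp only [s, u, map_mul, map_prod, map_pow, mul_pow, Finset.prod_mul_distrib]
    ring
  have hs : AlgebraicIndependent F s := by
    rw [algebraicIndependent_iff]
    intro Q hQ
    by_contra hne
    obtain ⟨a0, ha0⟩ := MvPolynomial.support_nonempty.2 hne
    refine sum_ne_zero hy Q.support (u Q) ha0 (hu0 Q a0 ha0) ?_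
    rw [← hQ, aeval_eq_sum_term]
    exact Finset.sum_congr rfl fun a _ => (hsterm Q a).symm
  obtain ⟨φ, hφ⟩ := exists_lift hT.indep hT.top hs
  have hφF : ∀ f : F, φ (f : K) = inc k M (g f) := fun f => φ.commutes f
  let φk : K →ₐ[k] L := { (φ : K →+* L) with
    commutes' := fun c => by
      change φ (algebraMap k K c) = algebraMap k L c
      have h1 : algebraMap k K c = ((algebraMap k F c : F) : K) := rfl
      rw [h1, hφF, AlgHom.commutes, AlgHom.commutes] }
  have hφk : ∀ f, φk f = φ f := fun f => rfl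
  refine ⟨M, inferInstance, inferInstance, φk, hessM, htrM, ?_⟩
  intro w hw v e he hwv
  have hwX : 0 ≤ w.ord RatFunc.X := by
    rcases hw with h | h
    · exact absurd h RatFunc.X_ne_zero
    · exact h
  have hwv' : ∀ f : K, w.ord (φ f) = e * v.ord f := hwv
  have hez : (0 : ℤ) < e := by exact_mod_cast he
  have hwM : ∀ z : M, z ≠ 0 → w.ord (algebraMap M L z) = 0 := fun z hz => w.ord_const hz
  have hinc0 : ∀ i, inc k M (h i) ≠ 0 := fun i => (map_ne_zero _).2 (hh0 i)
  have hwt : ∀ i, w.ord (φ (t i)) = w.ord (inc k M (h i)) := by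
    intro i
    rw [hφ]
    change w.ord (inc k M (h i) * algebraMap M L (y i)) = _
    rw [w.ord_mul (hinc0 i) ((map_ne_zero _).2 (hy0 i)), hwM _ (hy0 i), add_zero]
  let wk : Place k L :=
    { ord := w.ord
      ord_zero := w.ord_zero
      ord_mul := fun {f g} hf hg => w.ord_mul hf hg
      ord_add := fun {f g} hf hg hfg => w.ord_add hf hg hfg
      ord_const := fun {c} hc => by
        rw [IsScalarTower.algebraMap_apply k M L]
        exact hwM _ ((map_ne_zero _).2 hc)
      surj := w.surj }
  let _ : Algebra (RatFunc k) L := (inc k M).toRingHom.toAlgebra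
  have hst : IsScalarTower k (RatFunc k) L := IsScalarTower.of_algebraMap_eq fun c => by
    change _ = inc k M (algebraMap k (RatFunc k) c)
    rw [AlgHom.commutes]
  by_cases htriv : ∀ f : RatFunc k, w.ord (inc k M f) = 0
  · refine hT.isOpen v (fun i => ?_) (fun c _ e' => not_over_of_trivial (fun f => ?_) c e')
    · have h1 := hwv' (t i)
      rw [hwt, htriv] at h1
      exact (mul_eq_zero.1 h1.symm).resolve_left hez.ne'
    · have h1 := hwv' (f : K)
      rw [hφF, htriv] at h1
      exact (mul_eq_zero.1 h1.symm).resolve_left hez.ne'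
  push Not at htriv
  obtain ⟨b, q, hq⟩ := exists_over (K := RatFunc k) wk htriv
  have hq2 : ∀ f, w.ord (inc k M f) = b * q.ord f := hq.2
  have hbz : (0 : ℤ) < b := by exact_mod_cast hq.1
  have hqX : 0 ≤ q.ord RatFunc.X := by
    have h1 := hq2 RatFunc.X
    rw [inc_X] at h1
    have h1' : w.ord (RatFunc.X : RatFunc M) = b * q.ord RatFunc.X := h1
    rw [h1'] at hwX
    exact nonneg_of_mul_nonneg_right hwX hbz
  -- the point of the curve
  obtain ⟨e', c, hc⟩ := point_below g q
  have hez' : (0 : ℤ) < e' := by exact_mod_cast hc.1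
  by_cases hcB : c ∈ B
  swap
  · -- not over `B`
    have hno : ¬ ∃ c ∈ B, ∃ e : ℕ, 0 < e ∧ ∀ f, q.ord (g f) = e * c.ord f := by
      rintro ⟨c1, hc1, e1, he1, h1⟩
      have : c1 = c := place_eq_of_prop he1 hc.1 fun f => by rw [← h1, ← hc.2]
      exact hcB (this ▸ hc1)
    have hρ0 := hρ2 q hno
    refine hT.isOpen v (fun i => ?_) (fun c1 hc1 e1 hv1 => ?_)
    · have h1 := hwv' (t i)
      rw [hwt, hq2, hh i q hqX, hρ0, Pi.zero_apply, mul_zero] at h1
      exact (mul_eq_zero.1 h1.symm).resolve_left hez.ne'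
    · have : c1 = c := by
        refine place_eq_of_prop (Nat.mul_pos he hv1.1) (Nat.mul_pos hq.1 hc.1) fun f => ?_
        have h1 := hwv' (f : K)
        have h2 : v.ord (f : K) = e1 * c1.ord f := hv1.2 f
        rw [hφF, hq2, hc.2, h2] at h1
        push_cast
        linarith
      exact hcB (this ▸ hc1)
  obtain ⟨v1, m, κ, h1, h2, h3, h4, h5⟩ := hρ1 q hqX c hcB e' hc.1 hc.2
  have h2' : ∀ f : F, v1.ord (f : K) = m * c.ord f := h2.2
  have hmono : IsMono F t w (φ : K →+* L) := by
    refine isMono_of hT.indep fun Q r hQ hr => ?_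
    have hterm : ∀ a, φ (term t Q a) = inc k M (u Q a) * algebraMap M L (∏ i, y i ^ a i) := by
      intro a
      rw [← hsterm]
      unfold term
      rw [map_mul, map_prod]
      simp only [map_pow, hφ]
      rw [φ.commutes]
    have hprod0 : ∀ a : Fin n →₀ ℕ, (∏ i, y i ^ a i) ≠ 0 := fun a =>
      Finset.prod_ne_zero_iff.2 fun i _ => pow_ne_zero _ (hy0 i)
    have hr' : ∀ a ∈ Q.support, b * q.ord (u Q a) = r := by
      intro a ha
      have h6 := hr a ha
      change w.ord (φ (term t Q a)) = r at h6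
      rwa [hterm, w.ord_mul ((map_ne_zero _).2 (hu0 Q a ha)) ((map_ne_zero _).2 (hprod0 a)),
        hwM _ (hprod0 a), add_zero, hq2] at h6
    obtain ⟨a0, ha0⟩ := MvPolynomial.support_nonempty.2 hQ
    set π := u Q a0 with hπ
    have hπ0 : π ≠ 0 := hu0 Q a0 ha0
    have hquot : ∀ a ∈ Q.support, q.ord (u Q a / π) = 0 := by
      intro a ha
      rw [q.ord_div (hu0 Q a ha) hπ0]
      change q.ord (u Q a) - q.ord (u Q a0) = 0
      have h6 := hr' a ha
      rw [← hr' a0 ha0] at h6
      have := mul_left_cancel₀ hbz.ne' h6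
      omega
    have hγ : ∀ a : Fin n →₀ ℕ, ∃ γ : k, a ∈ Q.support →
        Ge q 1 (u Q a / π - algebraMap k (RatFunc k) γ) := by
      intro a
      by_cases ha : a ∈ Q.support
      · obtain ⟨γ, hγ⟩ := exists_const q (f := u Q a / π) (Or.inr (hquot a ha).ge)
        exact ⟨γ, fun _ => hγ⟩
      · exact ⟨0, fun h => absurd h ha⟩
    choose γ hγ using hγ
    have hγ0 : γ a0 ≠ 0 := by
      intro h0
      have h6 := hγ a0 ha0
      rw [h0, map_zero, sub_zero, ← hπ, div_self hπ0] at h6
      rcases h6 with h6 | h6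
      · exact one_ne_zero h6
      · rw [q.ord_one] at h6
        omega
    have hA0 : (∑ a ∈ Q.support, algebraMap k M (γ a) * ∏ i, y i ^ a i) ≠ 0 := by
      intro h0
      have h6 : MvPolynomial.aeval y (∑ a ∈ Q.support, MvPolynomial.monomial a (γ a)) = 0 := by
        rw [map_sum, ← h0]
        refine Finset.sum_congr rfl fun a _ => ?_
        rw [MvPolynomial.aeval_monomial, Finsupp.prod_fintype _ _ (fun i => pow_zero _)]
      have h7 := (injective_iff_map_eq_zero _).1 hy _ h6
      have h8 := congrArg (MvPolynomial.coeff a0) h7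
      rw [MvPolynomial.coeff_sum] at h8
      simp only [MvPolynomial.coeff_monomial] at h8
      rw [Finset.sum_ite_eq', if_pos ha0, MvPolynomial.coeff_zero] at h8
      exact hγ0 h8
    have hsum : φ (MvPolynomial.aeval t Q) = inc k M π *
        (algebraMap M L (∑ a ∈ Q.support, algebraMap k M (γ a) * ∏ i, y i ^ a i) +
        ∑ a ∈ Q.support, inc k M (u Q a / π - algebraMap k (RatFunc k) (γ a)) *
          algebraMap M L (∏ i, y i ^ a i)) := by
      rw [aeval_eq_sum_term, map_sum, map_sum, ← Finset.sum_add_distrib, Finset.mul_sum]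
      refine Finset.sum_congr rfl fun a _ => ?_
      have e1 : inc k M (u Q a / π - algebraMap k (RatFunc k) (γ a)) =
          inc k M (u Q a) / inc k M π - algebraMap k L (γ a) := by
        rw [map_sub, map_div₀, AlgHom.commutes]
      have e2 : algebraMap M L (algebraMap k M (γ a) * ∏ i, y i ^ a i) =
          algebraMap k L (γ a) * algebraMap M L (∏ i, y i ^ a i) := by
        rw [map_mul, ← IsScalarTower.algebraMap_apply k M L]
      have e3 : inc k M π ≠ 0 := (map_ne_zero _).2 hπ0
      rw [hterm, e1, e2]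
      generalize inc k M (u Q a) = U at *
      generalize inc k M π = P at *
      generalize algebraMap M L (∏ i, y i ^ a i) = Y
      field_simp
      ring
    have hge : Ge w 1 (∑ a ∈ Q.support, inc k M (u Q a / π - algebraMap k (RatFunc k) (γ a)) *
          algebraMap M L (∏ i, y i ^ a i)) := by
      refine Ge.sum _ _ fun a ha => ?_
      rcases hγ a ha with h6 | h6
      · left
        rw [h6, map_zero, zero_mul]
      · right
        have h7 : u Q a / π - algebraMap k (RatFunc k) (γ a) ≠ 0 := by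
          intro h7
          rw [h7, q.ord_zero] at h6
          omega
        rw [w.ord_mul ((map_ne_zero _).2 h7) ((map_ne_zero _).2 (hprod0 a)), hwM _ (hprod0 a),
          add_zero, hq2]
        nlinarith
    have hAL : algebraMap M L (∑ a ∈ Q.support, algebraMap k M (γ a) * ∏ i, y i ^ a i) ≠ 0 :=
      (map_ne_zero _).2 hA0
    have hord : w.ord (algebraMap M L (∑ a ∈ Q.support, algebraMap k M (γ a) * ∏ i, y i ^ a i) +
        ∑ a ∈ Q.support, inc k M (u Q a / π - algebraMap k (RatFunc k) (γ a)) *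
          algebraMap M L (∏ i, y i ^ a i)) = 0 ∧
        (algebraMap M L (∑ a ∈ Q.support, algebraMap k M (γ a) * ∏ i, y i ^ a i) +
        ∑ a ∈ Q.support, inc k M (u Q a / π - algebraMap k (RatFunc k) (γ a)) *
          algebraMap M L (∏ i, y i ^ a i)) ≠ 0 := by
      rcases hge with h6 | h6
      · rw [h6, add_zero]
        exact ⟨hwM _ hA0, hAL⟩
      · have h7 : (∑ a ∈ Q.support, inc k M (u Q a / π - algebraMap k (RatFunc k) (γ a)) *
            algebraMap M L (∏ i, y i ^ a i)) ≠ 0 := by
          intro h7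
          rw [h7, w.ord_zero] at h6
          omega
        have h8 := w.ord_add_eq hAL h7 (by rw [hwM _ hA0]; omega)
        exact ⟨h8.2.trans (hwM _ hA0), h8.1⟩
    change w.ord (φ (MvPolynomial.aeval t Q)) = r
    rw [hsum, w.ord_mul ((map_ne_zero _).2 hπ0) hord.2, hord.1, add_zero, hq2]
    exact hr' a0 ha0
  refine not_bd_of_mono hT h1 (Or.inl ⟨unif c, ?_⟩) hmono (c := b * κ) (d := 1)
    (Nat.mul_pos hq.1 h3) one_pos (fun f => ?_) (fun i => ?_) he hwv'
  · rw [h2', ord_unif, mul_one]
    exact_mod_cast h2.1.ne'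
  · change ((1 : ℕ) : ℤ) * w.ord (φ (f : K)) = _
    rw [hφF, hq2, hc.2, h2', h4]
    push_cast
    ring
  · change ((1 : ℕ) : ℤ) * w.ord (φ (t i)) = _
    rw [hwt, hq2, hh i q hqX, h5]
    push_cast
    ring

end

end Pool.Agent.V8H92.TA
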