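import Pool.Agent.V8H92.TA.Form

/-!
Logarithmic pluricanonical forms on varieties with a torus action, from the orbifold curve.
-/

set_option autoImplicit false
set_option linter.unusedSectionVars false

open FF IntermediateField Pool.Agent.W603.LV Pool.Agent.W619.PQ Pool.Agent.W619.PL
  Pool.Agent.W602.GT

namespace Pool.Agent.V8H92.TA

section

variable {k K : Type} [Field k] [CharZero k] [IsAlgClosed k] [Field K] [Algebra k K]
  {F : IntermediateField k K} {n : ℕ}
  {t : Fin n → K} {Bd : Place k K → Prop} {B : Finset (Place k F)}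

theorem mult_le {v : Place k K} {c : Place k F} {e : ℕ} (hv : ¬ Bd v) (h : Over v c e) :
    mult Bd c ≤ e := Nat.sInf_le ⟨v, hv, h⟩

theorem mult_pos {v : Place k K} {c : Place k F} {e : ℕ} (hv : ¬ Bd v) (h : Over v c e) :
    0 < mult Bd c := by
  have h1 : ({e : ℕ | ∃ v : Place k K, ¬ Bd v ∧ Over v c e} : Set ℕ).Nonempty := ⟨e, v, hv, h⟩
  obtain ⟨v', -, h3⟩ := Nat.sInf_mem h1
  exact h3.1

/-- An irrational quotient curve. -/
theorem kodGe_of_irrational [hF : IsFF k F] (hT : TorusAction F t Bd B)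
    (hhor : ∀ v : Place k K, ¬ Bd v → (∀ f : F, v.ord (f : K) = 0) → ∀ i, v.ord (t i) = 0)
    (hirr : ¬ ∃ x : F, k⟮x⟯ = ⊤) : KodGe k K (n + 1) Bd 0 := by
  obtain ⟨f, hf0, hf⟩ := exists_regular hirr (der_ne (k := k) (K := F))
  have h1 : ∀ q : Place k F, 1 ≤ q.ord f + ((1 : ℕ) : ℤ) * (1 - vo q (der k F)) := by
    intro q
    have := hf q
    push_cast
    linarith
  refine kodGe_of_form hT hhor one_pos der_ne hf0 (fun q => ?_) (fun q v e _ h => ?_)
  · have := h1 q
    linarith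
  · have h2 : (1 : ℤ) ≤ e := by exact_mod_cast h.1
    have := h1 q
    push_cast at this ⊢
    nlinarith

/-- A rational quotient curve with many multiple fibres and punctures. -/
theorem kodGe_of_sum [hF : IsFF k F] (hT : TorusAction F t Bd B)
    (hhor : ∀ v : Place k K, ¬ Bd v → (∀ f : F, v.ord (f : K) = 0) → ∀ i, v.ord (t i) = 0)
    {x : F} (hx : k⟮x⟯ = ⊤) (hsum : (2 : ℚ) ≤ ∑ c ∈ B, (1 - 1 / (mult Bd c : ℚ))) :
    KodGe k K (n + 1) Bd 0 := by
  classical
  obtain ⟨D, hD, hDx⟩ := exists_ddx (transcendental_of_top hx)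
  set m : ℕ := ∏ q ∈ B.filter (fun q => mult Bd q ≠ 0), mult Bd q with hm
  have hm1 : 1 ≤ m := Nat.one_le_iff_ne_zero.2 (Finset.prod_ne_zero_iff.2 fun q hq =>
    (Finset.mem_filter.1 hq).2)
  have hdvd : ∀ q ∈ B, mult Bd q ≠ 0 → mult Bd q ∣ m := fun q hq hq2 =>
    Finset.dvd_prod_of_mem _ (Finset.mem_filter.2 ⟨hq, hq2⟩)
  let r : Place k F → ℤ := fun q => if mult Bd q = 0 then m else m - (m / mult Bd q : ℕ)
  have hr : ∀ q ∈ B, mult Bd q ≠ 0 → (mult Bd q : ℤ) * (m - r q) = m := by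
    intro q hq hq2
    have h1 : mult Bd q * (m / mult Bd q) = m := Nat.mul_div_cancel' (hdvd q hq hq2)
    simp only [r, if_neg hq2]
    have h2 : (mult Bd q : ℤ) * ((m / mult Bd q : ℕ) : ℤ) = m := by exact_mod_cast h1
    linarith
  have hrQ : ∀ q ∈ B, (r q : ℚ) = m * (1 - 1 / (mult Bd q : ℚ)) := by
    intro q hq
    by_cases hq2 : mult Bd q = 0
    · simp only [r, if_pos hq2]
      rw [hq2]
      simp
    · have h1 := hr q hq hq2
      have h2 : (mult Bd q : ℚ) ≠ 0 := by exact_mod_cast hq2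
      have h3 : (mult Bd q : ℚ) * ((m : ℚ) - r q) = m := by exact_mod_cast h1
      field_simp
      linarith
  have hsumr : 2 * (m : ℤ) + (0 : ℕ) ≤ ∑ q ∈ B, r q := by
    have h1 : ((∑ q ∈ B, r q : ℤ) : ℚ) = m * ∑ q ∈ B, (1 - 1 / (mult Bd q : ℚ)) := by
      rw [Int.cast_sum, Finset.mul_sum]
      exact Finset.sum_congr rfl hrQ
    have h2 : (2 : ℚ) * m ≤ ((∑ q ∈ B, r q : ℤ) : ℚ) := by
      rw [h1]
      have : (0 : ℚ) ≤ m := by positivity
      nlinarith
    rw [Nat.cast_zero, add_zero]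
    exact_mod_cast h2
  obtain ⟨c, hc0, hc⟩ := exists_form_gen hx B r m 0 hsumr hD hDx
  have hmz : (0 : ℤ) ≤ m := by positivity
  have hnn : ∀ q : Place k F, 0 ≤ q.ord c + m * (1 - vo q D) := by
    intro q
    have h1 := hc 0 le_rfl q
    rw [pow_zero, mul_one] at h1
    refine le_trans ?_ h1
    by_cases hqB : q ∈ B
    · rw [if_pos hqB]
      by_cases hq2 : mult Bd q = 0
      · simp only [r, if_pos hq2]
        linarith
      · have h2 := hr q hqB hq2
        have h3 : (0 : ℤ) < mult Bd q := by exact_mod_cast Nat.pos_of_ne_zero hq2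
        have h4 : 0 ≤ (mult Bd q : ℤ) * (m - r q) := by rw [h2]; exact hmz
        exact nonneg_of_mul_nonneg_right h4 h3
    · rw [if_neg hqB]
      linarith
  refine kodGe_of_form hT hhor hm1 hD hc0 hnn (fun q v e hv h => ?_)
  have h1 := hc 0 le_rfl q
  rw [pow_zero, mul_one] at h1
  have hle : (mult Bd q : ℤ) ≤ e := by exact_mod_cast mult_le hv h
  have hpos := mult_pos hv h
  have hnn' := hnn q
  have h3 : (mult Bd q : ℤ) * (q.ord c + m * (1 - vo q D)) ≤ e * (q.ord c + m * (1 - vo q D)) :=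
    mul_le_mul_of_nonneg_right hle hnn'
  refine le_trans ?_ h3
  by_cases hqB : q ∈ B
  · rw [if_pos hqB] at h1
    have h4 := mul_le_mul_of_nonneg_left h1 (Int.natCast_nonneg (mult Bd q))
    rw [hr q hqB hpos.ne'] at h4
    exact h4
  · rw [if_neg hqB] at h1
    have h5 : (1 : ℤ) ≤ mult Bd q := by exact_mod_cast hpos
    nlinarith

end

end Pool.Agent.V8H92.TA
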