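import Pool.Agent.V8H92.TA.Lft
import Pool.Agent.V8H92.TA.Sig
import Pool.Agent.V8H92.TA.Orb
import Pool.Agent.W602.GT.KPsefS
import Pool.Agent.V8H92.TA.Neg

/-!
`A¹`-uniruledness and the logarithmic Kodaira dimension of varieties with an action of a torus
whose general orbits have codimension one.
-/

set_option autoImplicit false
set_option linter.unusedSectionVars false

open FF IntermediateField Pool.Agent.W603.LV Pool.Agent.W619.PQ Pool.Agent.W619.PL
  Pool.Agent.W602.GT

namespace Pool.Agent.V8H92.TA

section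

variable {k K : Type} [Field k] [CharZero k] [IsAlgClosed k] [Field K] [Algebra k K]
  {F : IntermediateField k K} {n : ℕ}
  {t : Fin n → K} {Bd : Place k K → Prop} {B : Finset (Place k F)}

/-- Outside `B` the fibres have a component of multiplicity one. -/
theorem mult_eq_one (hT : TorusAction F t Bd B) {c : Place k F} (hc : c ∉ B) :
    mult Bd c = 1 := by
  classical
  obtain ⟨V, hV⟩ := exists_gauss (Fin n) c
  let R := MvPolynomial (Fin n) F
  let L := FractionRing R
  have hX : AlgebraicIndependent F (fun i : Fin n => algebraMap R L (MvPolynomial.X i)) := by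
    have h1 : AlgebraicIndependent F (MvPolynomial.X : Fin n → R) :=
      MvPolynomial.algebraicIndependent_X _ _
    exact h1.map' (f := IsScalarTower.toAlgHom F R L) (IsFractionRing.injective R L)
  obtain ⟨φ, hφ⟩ := exists_lift hT.indep hT.top hX
  have hVF : ∀ f : F, V.ord (φ (f : K)) = c.ord f := by
    intro f
    by_cases hf : f = 0
    · rw [hf, ZeroMemClass.coe_zero, map_zero, V.ord_zero, c.ord_zero]
    · have h1 : φ (f : K) = algebraMap R L (MvPolynomial.C f) := by
        have h2 : φ (algebraMap F K f) = algebraMap F L f := φ.commutes f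
        rw [IsScalarTower.algebraMap_apply F R L] at h2
        exact h2
      rw [h1]
      exact hV _ _ (isOrd_C hf)
  have hVX : ∀ i, V.ord (φ (t i)) = 0 := by
    intro i
    rw [hφ]
    apply hV
    refine ⟨fun a => ?_, Finsupp.single i 1, ?_, ?_⟩
    · rw [MvPolynomial.coeff_X]
      split_ifs
      · exact Ge.one
      · exact Ge.zero
    · rw [MvPolynomial.coeff_X, if_pos rfl]
      exact one_ne_zero
    · rw [MvPolynomial.coeff_X, if_pos rfl, c.ord_one]
  let v : Place k K :=
    { ord := fun f => V.ord (φ f)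
      ord_zero := by rw [map_zero, V.ord_zero]
      ord_mul := fun {f g} hf hg => by
        rw [map_mul, V.ord_mul ((map_ne_zero _).2 hf) ((map_ne_zero _).2 hg)]
      ord_add := fun {f g} hf hg hfg => by
        rw [map_add]
        exact V.ord_add ((map_ne_zero _).2 hf) ((map_ne_zero _).2 hg)
          (by rw [← map_add]; exact (map_ne_zero _).2 hfg)
      ord_const := fun {r} hr => by
        have h1 := hVF (algebraMap k F r)
        rw [c.ord_const hr] at h1
        exact h1
      surj := by
        obtain ⟨s, hs0, hs⟩ := c.surj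
        refine ⟨(s : K), fun h => hs0 (Subtype.ext h), ?_⟩
        rw [hVF, hs] }
  have hover : Over v c 1 := ⟨one_pos, fun f => by
    rw [Nat.cast_one, one_mul]
    exact hVF f⟩
  have hv : ¬ Bd v := by
    refine hT.isOpen v hVX fun c' hc' e he => ?_
    have : c' = c := place_eq_of_prop he.1 one_pos fun f => by
      rw [← he.2 f, ← hover.2 f]
    exact hc (this ▸ hc')
  have h1 := mult_le hv hover
  have h2 := mult_pos hv hover
  omega

theorem ess_of_action [hess : Algebra.EssFiniteType k F] (hT : TorusAction F t Bd B) :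
    Algebra.EssFiniteType k K := by
  have h1 : (⊤ : IntermediateField F K).FG := by
    rw [← hT.top]
    have := IntermediateField.fg_adjoin_finset (F := F) ((Set.finite_range t).toFinset)
    rwa [Set.Finite.coe_toFinset] at this
  have h2 : Algebra.EssFiniteType F (⊤ : IntermediateField F K) :=
    (IntermediateField.essFiniteType_iff).2 h1
  have h3 : Algebra.EssFiniteType F K := (Algebra.EssFiniteType.iff_of_algEquiv
    (IntermediateField.topEquiv (F := F) (E := K))).1 h2
  exact Algebra.EssFiniteType.comp k F K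

/-- **Varieties with a torus action of complexity one.** -/
theorem tfae [hF : IsFF k F] (hT : TorusAction F t Bd B) :
    [¬ KodGe k K (n + 1) Bd 0, ¬ Pool.Agent.W602.GT.Psef k K (n + 1) Bd,
      IsA1Uniruled k K (n + 1) Bd,
      (∃ v : Place k K, ¬ Bd v ∧ (∀ f : F, v.ord (f : K) = 0) ∧ ∃ i, v.ord (t i) ≠ 0) ∨
        ((∃ x : F, k⟮x⟯ = ⊤) ∧ ∑ c ∈ B, (1 - 1 / (mult Bd c : ℚ)) < 2)].TFAE := by
  classical
  have hess : Algebra.EssFiniteType k F := hF.ess
  have hessK : Algebra.EssFiniteType k K := ess_of_action hT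
  tfae_have 3 → 2 := not_psef_of_a1 (trdeg_of_action hT)
  tfae_have 2 → 1 := fun h h' => h (psef_of_kodGe h')
  tfae_have 1 → 4 := by
    intro h
    by_contra hcon
    push Not at hcon
    obtain ⟨h1, h2⟩ := hcon
    have hhor : ∀ v : Place k K, ¬ Bd v → (∀ f : F, v.ord (f : K) = 0) → ∀ i, v.ord (t i) = 0 := h1
    by_cases hrat : ∃ x : F, k⟮x⟯ = ⊤
    · obtain ⟨x, hx⟩ := hrat
      exact h (kodGe_of_sum hT hhor hx (h2 ⟨x, hx⟩))
    · exact h (kodGe_of_irrational hT hhor hrat)
  tfae_have 4 → 3 := by
    rintro (⟨v, hv, htriv, i, hi⟩ | ⟨⟨x, hx⟩, hsum⟩)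
    · exact a1_horizontal hT hv htriv i hi
    · obtain ⟨g, hg⟩ := exists_orbifold_line hx B (fun c => mult Bd c)
        (fun c hc => mult_eq_one hT hc) hsum
      refine a1_of_base hT g fun q hq c e he hce => ?_
      obtain ⟨h1, h2⟩ := hg q hq c e he hce
      have h3 : ({e : ℕ | ∃ v : Place k K, ¬ Bd v ∧ Over v c e} : Set ℕ).Nonempty := by
        by_contra h
        rw [Set.not_nonempty_iff_eq_empty] at h
        exact h1 (by unfold mult; rw [h]; exact Nat.sInf_empty)
      obtain ⟨v, hv, hvc⟩ := Nat.sInf_mem h3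
      exact ⟨v, mult Bd c, hv, hvc, h2⟩
  tfae_finish

end

end Pool.Agent.V8H92.TA
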