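import Pool.Agent.V8H92.TA.Gauss

/-!
Monomial valuations of a field of rational functions `K = F (t 1, …, t n)`.
-/

set_option autoImplicit false
set_option linter.unusedSectionVars false

open FF Pool.Agent.W603.LV MvPolynomial

namespace Pool.Agent.V8H92.TA

section

variable {F K : Type} [Field F] [Field K] [Algebra F K] {n : ℕ} {t : Fin n → K}

variable (t) in
/-- The term of `Q(t)` with the exponent `a`. -/
noncomputable def term (Q : MvPolynomial (Fin n) F) (a : Fin n →₀ ℕ) : K :=
  algebraMap F K (Q.coeff a) * ∏ i, t i ^ a i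

theorem aeval_eq_sum_term (Q : MvPolynomial (Fin n) F) :
    aeval t Q = ∑ a ∈ Q.support, term t Q a := by
  rw [aeval_def, eval₂_eq']
  rfl

/-- The part of the polynomial with the exponents in `S`. -/
noncomputable def part (Q : MvPolynomial (Fin n) F) (S : Finset (Fin n →₀ ℕ)) :
    MvPolynomial (Fin n) F := ∑ a ∈ S, monomial a (Q.coeff a)

theorem coeff_part (Q : MvPolynomial (Fin n) F) (S : Finset (Fin n →₀ ℕ)) (b : Fin n →₀ ℕ) :
    (part Q S).coeff b = if b ∈ S then Q.coeff b else 0 := by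
  classical
  unfold part
  rw [coeff_sum]
  simp only [coeff_monomial]
  rw [Finset.sum_ite_eq']

theorem aeval_part (Q : MvPolynomial (Fin n) F) (S : Finset (Fin n →₀ ℕ)) :
    aeval t (part Q S) = ∑ a ∈ S, term t Q a := by
  unfold part
  rw [map_sum]
  refine Finset.sum_congr rfl fun a _ => ?_
  rw [aeval_monomial, Finsupp.prod_fintype _ _ (fun i => pow_zero _)]
  rfl

theorem ne_zero_of_indep (ht : AlgebraicIndependent F t) (i : Fin n) : t i ≠ 0 := ht.ne_zero i

theorem term_ne_zero (ht : AlgebraicIndependent F t) {Q : MvPolynomial (Fin n) F}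
    {a : Fin n →₀ ℕ} (ha : a ∈ Q.support) : term t Q a ≠ 0 := by
  refine mul_ne_zero ?_ (Finset.prod_ne_zero_iff.2 fun i _ => pow_ne_zero _ (ht.ne_zero i))
  exact (map_ne_zero _).2 (mem_support_iff.1 ha)

theorem aeval_ne_zero (ht : AlgebraicIndependent F t) {Q : MvPolynomial (Fin n) F}
    (hQ : Q ≠ 0) : aeval t Q ≠ 0 := fun h => hQ ((injective_iff_map_eq_zero _).1 ht Q h)

variable {k' L : Type} [Field k'] [Field L] [Algebra k' L] (W : Place k' L) (φ : K →+* L)

variable (F t) in
/-- The order of `φ (Q (t))` is the minimum of the orders of its terms. -/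
def IsMono : Prop := ∀ Q : MvPolynomial (Fin n) F, Q ≠ 0 → ∃ a ∈ Q.support,
  W.ord (φ (aeval t Q)) = W.ord (φ (term t Q a)) ∧
    ∀ b ∈ Q.support, W.ord (φ (term t Q a)) ≤ W.ord (φ (term t Q b))

variable {W φ}

theorem isMono_of (ht : AlgebraicIndependent F t)
    (h : ∀ (Q : MvPolynomial (Fin n) F) (r : ℤ), Q ≠ 0 →
      (∀ a ∈ Q.support, W.ord (φ (term t Q a)) = r) → W.ord (φ (aeval t Q)) = r) :
    IsMono F t W φ := by
  classical
  intro Q hQ
  obtain ⟨a, ha, hmin⟩ := Finset.exists_min_image Q.support (fun a => W.ord (φ (term t Q a)))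
    (support_nonempty.2 hQ)
  refine ⟨a, ha, ?_, hmin⟩
  set r := W.ord (φ (term t Q a)) with hr
  set S0 := Q.support.filter fun b => W.ord (φ (term t Q b)) = r with hS0
  set S1 := Q.support.filter fun b => ¬ W.ord (φ (term t Q b)) = r with hS1
  have hsplit : aeval t Q = aeval t (part Q S0) + aeval t (part Q S1) := by
    rw [aeval_part, aeval_part, aeval_eq_sum_term, hS0, hS1, Finset.sum_filter_add_sum_filter_not]
  have hcoef : ∀ b ∈ S0, (part Q S0).coeff b = Q.coeff b := fun b hb => by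
    rw [coeff_part, if_pos hb]
  have haS : a ∈ S0 := Finset.mem_filter.2 ⟨ha, rfl⟩
  have hQ0 : part Q S0 ≠ 0 := by
    intro h0
    have h1 := hcoef a haS
    rw [h0, coeff_zero] at h1
    exact (mem_support_iff.1 ha) h1.symm
  have hsupp : ∀ b ∈ (part Q S0).support, b ∈ S0 := by
    intro b hb
    by_contra hcon
    rw [mem_support_iff, coeff_part, if_neg hcon] at hb
    exact hb rfl
  have h0 : W.ord (φ (aeval t (part Q S0))) = r := by
    refine h _ r hQ0 fun b hb => ?_
    have hb' := hsupp b hb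
    have : term t (part Q S0) b = term t Q b := by
      unfold term
      rw [hcoef b hb']
    rw [this]
    exact (Finset.mem_filter.1 hb').2
  have h1 : Ge W (r + 1) (φ (aeval t (part Q S1))) := by
    rw [aeval_part, map_sum]
    refine Ge.sum _ _ fun b hb => Or.inr ?_
    obtain ⟨h2, h3⟩ := Finset.mem_filter.1 hb
    have h4 := hmin b h2
    change r ≤ _ at h4
    omega
  rw [hsplit, map_add]
  rcases h1 with h1 | h1
  · rw [h1, add_zero]
    exact h0
  · by_cases h2 : φ (aeval t (part Q S1)) = 0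
    · rw [h2, add_zero]
      exact h0
    · rw [(W.ord_add_eq ((map_ne_zero _).2 (aeval_ne_zero ht hQ0)) h2 (by omega)).2, h0]

theorem ord_term (ht : AlgebraicIndependent F t) {Q : MvPolynomial (Fin n) F}
    {a : Fin n →₀ ℕ} (ha : a ∈ Q.support) : W.ord (φ (term t Q a)) =
      W.ord (φ (algebraMap F K (Q.coeff a))) + ∑ i, (a i : ℤ) * W.ord (φ (t i)) := by
  classical
  have h1 : φ (algebraMap F K (Q.coeff a)) ≠ 0 :=
    (map_ne_zero _).2 ((map_ne_zero _).2 (mem_support_iff.1 ha))
  have h2 : ∀ s : Finset (Fin n), (∏ i ∈ s, φ (t i) ^ a i) ≠ 0 ∧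
      W.ord (∏ i ∈ s, φ (t i) ^ a i) = ∑ i ∈ s, (a i : ℤ) * W.ord (φ (t i)) := by
    intro s
    induction s using Finset.induction_on with
    | empty => simp [W.ord_one]
    | insert i s hi ih =>
      have h3 : φ (t i) ^ a i ≠ 0 := pow_ne_zero _ ((map_ne_zero _).2 (ht.ne_zero i))
      rw [Finset.prod_insert hi, Finset.sum_insert hi]
      refine ⟨mul_ne_zero h3 ih.1, ?_⟩
      rw [W.ord_mul h3 ih.1, W.ord_pow, ih.2]
  have h3 : φ (term t Q a) = φ (algebraMap F K (Q.coeff a)) * ∏ i, φ (t i) ^ a i := by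
    unfold term
    rw [map_mul, map_prod]
    simp only [map_pow]
  rw [h3, W.ord_mul h1 (h2 Finset.univ).1, (h2 Finset.univ).2]

theorem mem_div (htop : IntermediateField.adjoin F (Set.range t) = ⊤) (x : K) :
    ∃ P Q : MvPolynomial (Fin n) F, x = aeval t P / aeval t Q := by
  have h : x ∈ IntermediateField.adjoin F (Set.range t) := by rw [htop]; trivial
  exact (IntermediateField.mem_adjoin_range_iff F t x).1 h

/-- Monomial valuations which are proportional on `F` and on the `t i` are proportional. -/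
theorem IsMono.eq_of {k'' L' : Type} [Field k''] [Field L'] [Algebra k'' L'] {W' : Place k'' L'}
    {φ' : K →+* L'} (ht : AlgebraicIndependent F t)
    (htop : IntermediateField.adjoin F (Set.range t) = ⊤)
    (h1 : IsMono F t W φ) (h2 : IsMono F t W' φ') {c c' : ℤ} (hc : 0 < c) (hc' : 0 < c')
    (hF : ∀ f : F, c * W.ord (φ (algebraMap F K f)) = c' * W'.ord (φ' (algebraMap F K f)))
    (hT : ∀ i, c * W.ord (φ (t i)) = c' * W'.ord (φ' (t i))) (f : K) :
    c * W.ord (φ f) = c' * W'.ord (φ' f) := by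
  have hterm : ∀ (Q : MvPolynomial (Fin n) F), ∀ a ∈ Q.support,
      c * W.ord (φ (term t Q a)) = c' * W'.ord (φ' (term t Q a)) := by
    intro Q a ha
    rw [ord_term ht ha, ord_term ht ha, mul_add, mul_add, hF, Finset.mul_sum, Finset.mul_sum]
    congr 1
    refine Finset.sum_congr rfl fun i _ => ?_
    rw [mul_left_comm, hT, mul_left_comm]
  have hpoly : ∀ Q : MvPolynomial (Fin n) F, Q ≠ 0 →
      c * W.ord (φ (aeval t Q)) = c' * W'.ord (φ' (aeval t Q)) := by
    intro Q hQ
    obtain ⟨a, ha, ha1, ha2⟩ := h1 Q hQ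
    obtain ⟨b, hb, hb1, hb2⟩ := h2 Q hQ
    have h3 := mul_le_mul_of_nonneg_left (ha2 b hb) hc.le
    have h4 := mul_le_mul_of_nonneg_left (hb2 a ha) hc'.le
    rw [hterm Q a ha, hterm Q b hb] at h3
    rw [ha1, hb1, hterm Q a ha]
    exact le_antisymm h3 h4
  obtain ⟨P, Q, rfl⟩ := mem_div htop f
  by_cases hP : P = 0
  · simp [hP, W.ord_zero, W'.ord_zero]
  by_cases hQ : Q = 0
  · simp [hQ, W.ord_zero, W'.ord_zero]
  have hP' := aeval_ne_zero ht hP
  have hQ' := aeval_ne_zero ht hQ
  rw [map_div₀, map_div₀, W.ord_div ((map_ne_zero _).2 hP') ((map_ne_zero _).2 hQ'),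
    W'.ord_div ((map_ne_zero _).2 hP') ((map_ne_zero _).2 hQ'), mul_sub, mul_sub, hpoly P hP,
    hpoly Q hQ]

/-- Homomorphisms from `F (t 1, …, t n)`. -/
theorem exists_lift (ht : AlgebraicIndependent F t)
    (htop : IntermediateField.adjoin F (Set.range t) = ⊤) {L : Type} [Field L] [Algebra F L]
    {s : Fin n → L} (hs : AlgebraicIndependent F s) : ∃ φ : K →ₐ[F] L, ∀ i, φ (t i) = s i := by
  let e1 : FractionRing (MvPolynomial (Fin n) F) ≃ₐ[F]
      IntermediateField.adjoin F (Set.range t) := ht.aevalEquivField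
  let e2 : IntermediateField.adjoin F (Set.range t) ≃ₐ[F] K :=
    (IntermediateField.equivOfEq htop).trans IntermediateField.topEquiv
  let e3 : FractionRing (MvPolynomial (Fin n) F) ≃ₐ[F]
      IntermediateField.adjoin F (Set.range s) := hs.aevalEquivField
  let φ : K →ₐ[F] L := (IntermediateField.val _).comp
    (e3.toAlgHom.comp (e1.trans e2).symm.toAlgHom)
  refine ⟨φ, fun i => ?_⟩
  have h1 : (e1.trans e2) (algebraMap (MvPolynomial (Fin n) F) _ (X i)) = t i := by
    change ((e1 (algebraMap (MvPolynomial (Fin n) F) _ (X i)) :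
      IntermediateField.adjoin F (Set.range t)) : K) = t i
    rw [ht.aevalEquivField_algebraMap_apply_coe, aeval_X]
  have h2 : (e1.trans e2).symm (t i) = algebraMap (MvPolynomial (Fin n) F) _ (X i) := by
    rw [AlgEquiv.symm_apply_eq, h1]
  change ((e3 ((e1.trans e2).symm (t i)) : IntermediateField.adjoin F (Set.range s)) : L) = s i
  rw [h2, hs.aevalEquivField_algebraMap_apply_coe, aeval_X]

end

end Pool.Agent.V8H92.TA
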