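import Mathlib

/-!
Klein's polynomials: polynomial solutions of `α A ^ a + β B ^ b = γ C ^ c` for
`1 / a + 1 / b + 1 / c > 1`.
-/

set_option autoImplicit false
set_option linter.unusedSectionVars false

open Polynomial

namespace Pool.Agent.V8H92.TA

section

variable (k : Type) [Field k]

/-- There are coprime polynomials `A`, `C`, with `A` not constant, and `B` such that
`α A ^ a + β B ^ b = γ C ^ c`. -/
def Triple (a b c : ℕ) : Prop :=
  ∃ (A B C : k[X]) (α β γ : k), α ≠ 0 ∧ β ≠ 0 ∧ γ ≠ 0 ∧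
    Polynomial.C α * A ^ a + Polynomial.C β * B ^ b = Polynomial.C γ * C ^ c ∧ IsCoprime A C ∧
    A.natDegree ≠ 0

variable {k} [CharZero k]

theorem isCoprime_of_const {A C U V : k[X]} {r : k} (hr : r ≠ 0)
    (h : U * A + V * C = Polynomial.C r) : IsCoprime A C := by
  refine ⟨Polynomial.C r⁻¹ * U, Polynomial.C r⁻¹ * V, ?_⟩
  have h1 : Polynomial.C r⁻¹ * U * A + Polynomial.C r⁻¹ * V * C =
      Polynomial.C r⁻¹ * (U * A + V * C) := by ring
  rw [h1, h, ← Polynomial.C_mul, inv_mul_cancel₀ hr, Polynomial.C_1]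

/-- The dihedral groups. -/
theorem triple_22 (n : ℕ) (hn : 1 ≤ n) : Triple k 2 2 n := by
  refine ⟨X ^ n + 1, X ^ n - 1, X, 1, -1, 4, one_ne_zero, by norm_num, by norm_num, ?_, ?_, ?_⟩
  · simp only [map_one, map_neg, map_ofNat]
    ring
  · refine ⟨1, - X ^ (n - 1), ?_⟩
    have : (X : k[X]) ^ n = X ^ (n - 1) * X := by
      rw [← pow_succ]
      congr 1
      omega
    rw [this]
    ring
  · have h1 : (X ^ n + 1 : k[X]) = X ^ n + C 1 := by rw [C_1]
    rw [h1, natDegree_X_pow_add_C]
    omega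

/-- The tetrahedral group. -/
theorem triple_233 : Triple k 2 3 3 := by
  refine ⟨X ^ 6 + 20 * X ^ 3 - 8, 4 * (X ^ 3 + 1), X * (X ^ 3 - 8), 1, -1, 1, one_ne_zero,
    by norm_num, one_ne_zero, ?_, ?_, ?_⟩
  · simp only [map_one, map_neg]
    ring
  · refine IsCoprime.mul_right ?_ ?_
    · refine isCoprime_of_const (U := 1) (V := - X ^ 5 - 20 * X ^ 2) (r := -8) (by norm_num) ?_
      simp only [map_neg, map_ofNat]
      ring
    · refine isCoprime_of_const (U := 1) (V := - 28 - X ^ 3) (r := 216) (by norm_num) ?_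
      simp only [map_ofNat]
      ring
  · have h1 : (X ^ 6 + 20 * X ^ 3 - 8 : k[X]).natDegree = 6 := by
      compute_degree!
    omega

/-- The octahedral group. -/
theorem triple_234 : Triple k 2 3 4 := by
  refine ⟨X ^ 12 - 33 * X ^ 8 - 33 * X ^ 4 + 1, X ^ 8 + 14 * X ^ 4 + 1, X * (X ^ 4 - 1), 1, -1,
    -108, one_ne_zero, by norm_num, by norm_num, ?_, ?_, ?_⟩
  · simp only [map_one, map_neg, map_ofNat]
    ring
  · refine IsCoprime.mul_right ?_ ?_
    · refine isCoprime_of_const (U := 1) (V := - X ^ 11 + 33 * X ^ 7 + 33 * X ^ 3) (r := 1)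
        (by norm_num) ?_
      simp only [map_one]
      ring
    · refine isCoprime_of_const (U := 1) (V := 65 + 32 * X ^ 4 - X ^ 8) (r := -64)
        (by norm_num) ?_
      simp only [map_neg, map_ofNat]
      ring
  · have h1 : (X ^ 12 - 33 * X ^ 8 - 33 * X ^ 4 + 1 : k[X]).natDegree = 12 := by
      compute_degree!
    omega

/-- The icosahedral group. -/
theorem triple_235 : Triple k 2 3 5 := by
  refine ⟨X ^ 30 + 522 * X ^ 25 - 10005 * X ^ 20 - 10005 * X ^ 10 - 522 * X ^ 5 + 1,
    -(X ^ 20 - 228 * X ^ 15 + 494 * X ^ 10 + 228 * X ^ 5 + 1), X * (X ^ 10 + 11 * X ^ 5 - 1), 1, 1,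
    1728, one_ne_zero, one_ne_zero, by norm_num, ?_, ?_, ?_⟩
  · simp only [map_one, map_ofNat]
    ring
  · refine IsCoprime.mul_right ?_ ?_
    · refine isCoprime_of_const (U := 1)
        (V := - X ^ 29 - 522 * X ^ 24 + 10005 * X ^ 19 + 10005 * X ^ 9 + 522 * X ^ 4) (r := 1)
        (by norm_num) ?_
      simp only [map_one]
      ring
    · refine isCoprime_of_const (U := -15127 - 1364 * X ^ 5)
        (V := -1968252 - 13755842 * X ^ 5 - 1224871 * X ^ 10 - 13582603 * X ^ 15 +
          712131 * X ^ 20 + 1364 * X ^ 25) (r := 1953125) (by norm_num) ?_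
      simp only [map_ofNat]
      ring
  · have h1 : (X ^ 30 + 522 * X ^ 25 - 10005 * X ^ 20 - 10005 * X ^ 10 - 522 * X ^ 5 + 1 :
        k[X]).natDegree = 30 := by
      compute_degree!
    omega

/-- The numbers `2 ≤ a ≤ b ≤ c` with `1 / a + 1 / b + 1 / c > 1`. -/
theorem triple_of_sum {a b c : ℕ} (ha : 2 ≤ a) (hab : a ≤ b) (hbc : b ≤ c)
    (h : (1 - 1 / (a : ℚ)) + (1 - 1 / (b : ℚ)) + (1 - 1 / (c : ℚ)) < 2) : Triple k a b c := by
  have ha' : (0 : ℚ) < a := by exact_mod_cast (by omega : 0 < a)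
  have hb' : (0 : ℚ) < b := by exact_mod_cast (by omega : 0 < b)
  have hc' : (0 : ℚ) < c := by exact_mod_cast (by omega : 0 < c)
  have key : (a * b * c : ℚ) < b * c + a * c + a * b := by
    have h1 : 1 < 1 / (a : ℚ) + 1 / b + 1 / c := by linarith
    have h2 : 1 / (a : ℚ) + 1 / b + 1 / c = (b * c + a * c + a * b) / (a * b * c) := by
      field_simp
    rw [h2, lt_div_iff₀ (by positivity), one_mul] at h1
    exact h1
  have key' : a * b * c < b * c + a * c + a * b := by exact_mod_cast key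
  have ha2 : a = 2 := by
    by_contra hne
    have ha3 : 3 ≤ a := by omega
    have h1 : 3 * (b * c) ≤ a * b * c := by
      rw [mul_assoc]; exact Nat.mul_le_mul_right _ ha3
    have h2 : a * c ≤ b * c := Nat.mul_le_mul_right _ hab
    have h3 : a * b ≤ c * b := Nat.mul_le_mul_right _ (hab.trans hbc)
    have h4 : c * b = b * c := mul_comm _ _
    omega
  subst ha2
  rcases Nat.lt_or_ge b 3 with hb3 | hb3
  · have hb2 : b = 2 := by omega
    subst hb2
    exact triple_22 c (by omega)
  · have hb4 : b < 4 := by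
      by_contra hcon
      push Not at hcon
      have h1 : 4 * c ≤ b * c := Nat.mul_le_mul_right _ hcon
      have h2 : 2 * b ≤ 2 * c := Nat.mul_le_mul_left _ hbc
      have h3 : 2 * b * c = 2 * (b * c) := mul_assoc _ _ _
      omega
    have hb : b = 3 := by omega
    subst hb
    have hc6 : c < 6 := by omega
    interval_cases c
    · exact triple_233
    · exact triple_234
    · exact triple_235

end

end Pool.Agent.V8H92.TA
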